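import Pool.Agent.R856.CM1
import Pool.Agent.Helper857.Pad

set_option autoImplicit false

/-!
Definitions for the two Lucas weighted sums (MP_d57286_nt).
-/

namespace Pool.Agent.R439.LW

open Finset Pool.Agent.R856.CM

/-- the Lucas sequence `u_k(4,1)` -/
def uL : ℕ → ℤ
  | 0 => 0
  | 1 => 1
  | (k+2) => 4 * uL (k+1) - uL k

def Wm (m : ℕ) : ℚ := ∑ k ∈ range (m+1), ((uL k : ℚ) * (-1/4)^k) * aa m k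
def Vm (m : ℕ) : ℚ := ∑ k ∈ range (m+1), ((k:ℚ) * (uL k : ℚ) * (-1/4)^k) * aa m k
def Tm (m : ℕ) : ℚ := ∑ k ∈ range (m+1), cc m k * (-1/16)^k
def Dm (m : ℕ) : ℚ := ∑ k ∈ range (m+1), (k:ℚ) * (cc m k * (-1/16)^k)

/-- `(-l)_k (l+3/2)_k / k!^2` -/
def gg (l k : ℕ) : ℚ := ∏ i ∈ range k, (((i:ℚ) - l) * ((l:ℚ) + 3/2 + i) / ((i:ℚ)+1)^2)
/-- `(-l)_k (-l)_k / ((-2l-1/2)_k k! 4^k)` -/
def bb (l k : ℕ) : ℚ := ∏ i ∈ range k, (((i:ℚ) - l)^2 / (((i:ℚ) - 2*l - 1/2) * ((i:ℚ)+1) * 4))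
/-- `(-l)_k (3l+3)_k / ((2l+5/2)_k k! 4^k)` -/
def hh (l k : ℕ) : ℚ := ∏ i ∈ range k, (((i:ℚ) - l) * (3*(l:ℚ)+3+i) / ((2*(l:ℚ) + 5/2 + i) * ((i:ℚ)+1) * 4))

def Al (l : ℕ) : ℚ := ∑ k ∈ range (l+1), gg l k * (1/4)^k
def Rl (l : ℕ) : ℚ := ∑ k ∈ range (l+1), gg l k * 4^k
def Bl (l : ℕ) : ℚ := ∑ k ∈ range (l+1), bb l k
def Cl (l : ℕ) : ℚ := ∑ k ∈ range (l+1), hh l k
def Kl (l : ℕ) : ℚ := gg l l * 4^l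
def fl (l : ℕ) : ℚ := ∏ i ∈ range l, (2*(4*(i:ℚ)+5)*(4*i+7)/(3*(6*i+7)*(3*i+5)))

end Pool.Agent.R439.LW
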