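import Pool.Agent.R439.LW.Stm
import Pool.Agent.R856.CM12

set_option autoImplicit false

namespace Pool.Agent.R439.LW

open Finset Polynomial Pool.Agent.Helper857.Pad Pool.Agent.R856.CM Pool.Agent.R856.TK

lemma fl_succ (l : ℕ) : fl (l+1) * (3*(6*(l:ℚ)+7)*(3*l+5)) = fl l * (2*(4*(l:ℚ)+5)*(4*l+7)) := by
  have e : fl (l+1) = fl l * (2*(4*(l:ℚ)+5)*(4*l+7)/(3*(6*l+7)*(3*l+5))) := by
    unfold fl; rw [prod_range_succ]
  have h1 : (6*(l:ℚ)+7) ≠ 0 := by positivity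
  have h2 : (3*(l:ℚ)+5) ≠ 0 := by positivity
  rw [e]; field_simp

def Qd (l : ℕ) : ℚ := ∏ i ∈ range l, ((l:ℚ) + 3/2 + i)

lemma Qd_succ (l : ℕ) : ((l:ℚ) + 3/2) * Qd (l+1) = Qd l * ((2*(l:ℚ)+3/2) * (2*(l:ℚ)+5/2)) := by
  have h1 : ∏ i ∈ range (l+2), ((l:ℚ) + 3/2 + i) = Qd l * ((2*(l:ℚ)+3/2) * (2*(l:ℚ)+5/2)) := by
    rw [prod_range_succ, prod_range_succ]
    unfold Qd
    push_cast
    ring
  rw [← h1, prod_range_succ' _ (l+1)]
  unfold Qd
  rw [mul_comm]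
  congr 1
  · apply prod_congr rfl
    intro i _
    push_cast; ring
  · push_cast; ring

lemma prod_neg (l : ℕ) : ∏ i ∈ range l, ((i:ℚ) - l) = (-1)^l * (l.factorial : ℚ) := by
  rw [← prod_range_reflect, ← Finset.prod_range_add_one_eq_factorial]
  push_cast
  have : ∀ j ∈ range l, (((l - 1 - j : ℕ) : ℚ) - l) = (-1) * ((j:ℚ) + 1) := by
    intro j hj
    rw [mem_range] at hj
    rw [show l - 1 - j = l - (j+1) by omega, Nat.cast_sub (by omega)]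
    push_cast; ring
  rw [prod_congr rfl this, prod_mul_distrib, prod_const, card_range]

lemma Kl_eq (l : ℕ) : Kl l * (l.factorial : ℚ) = (-4)^l * Qd l := by
  unfold Kl gg
  rw [prod_div_distrib, prod_mul_distrib, prod_neg, prod_pow]
  have h : ∏ i ∈ range l, ((i:ℚ)+1) = (l.factorial : ℚ) := by
    rw [← Finset.prod_range_add_one_eq_factorial]; push_cast; rfl
  rw [h]
  have h0 : (l.factorial : ℚ) ≠ 0 := by exact_mod_cast l.factorial_ne_zero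
  have e : (-4:ℚ)^l = (-1)^l * 4^l := by rw [← mul_pow]; norm_num
  rw [e]
  unfold Qd
  field_simp

lemma Kl_succ (l : ℕ) : Kl (l+1) * ((2*(l:ℚ)+3) * ((l:ℚ)+1)) = Kl l * (-2 * (4*(l:ℚ)+3) * (4*l+5)) := by
  have h1 := Kl_eq l
  have h2 := Kl_eq (l+1)
  have h3 := Qd_succ l
  have h0 : (l.factorial : ℚ) ≠ 0 := by exact_mod_cast l.factorial_ne_zero
  rw [Nat.factorial_succ] at h2
  push_cast at h2
  apply mul_right_cancel₀ h0
  rw [pow_succ] at h2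
  linear_combination (2*(l:ℚ)+3) * h2 - (2 * (4*(l:ℚ)+3) * (4*l+5)) * (-1) * h1 - 8 * (-4:ℚ)^l * h3

def P1 (l : ℕ) : ℚ := ∏ s ∈ range (2*l+2), (3*(s:ℚ)+1)

lemma P1_succ (l : ℕ) : P1 (l+1) = P1 l * ((6*(l:ℚ)+7) * (6*l+10)) := by
  unfold P1
  rw [show 2*(l+1)+2 = 2*l+2+1+1 by ring, prod_range_succ, prod_range_succ]
  push_cast; ring

lemma exact_rel (l : ℕ) : 3^(l+1) * P1 l * fl l = 4 * (-1)^l * (4*(l:ℚ)+3) * ((2*l+1).factorial : ℚ) * Kl l := by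
  induction l with
  | zero =>
    simp [P1, fl, Kl, gg, prod_range_succ]
    norm_num
  | succ l ih =>
    have h1 := fl_succ l
    have h2 := Kl_succ l
    rw [P1_succ]
    have e : ((2*(l+1)+1).factorial : ℚ) = (2*(l:ℚ)+3) * (2*(l:ℚ)+2) * ((2*l+1).factorial : ℚ) := by
      rw [show 2*(l+1)+1 = (2*l+1)+1+1 by ring, Nat.factorial_succ, Nat.factorial_succ]
      push_cast; ring
    rw [e]
    push_cast
    have key : (3*(6*(l:ℚ)+7)*(3*l+5)) * (3^(l+1+1) * (P1 l * ((6*(l:ℚ)+7) * (6*l+10))) * fl (l+1)) =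
        (3*(6*(l:ℚ)+7)*(3*l+5)) * (4 * (-1)^(l+1) * (4*((l:ℚ)+1)+3) * ((2*(l:ℚ)+3) * (2*(l:ℚ)+2) * ((2*l+1).factorial : ℚ)) * Kl (l+1)) := by
      have e1 : (3*(6*(l:ℚ)+7)*(3*l+5)) * (3^(l+1+1) * (P1 l * ((6*(l:ℚ)+7) * (6*l+10))) * fl (l+1)) =
        3 * ((6*(l:ℚ)+7) * (6*l+10)) * (3^(l+1) * P1 l) * (fl (l+1) * (3*(6*(l:ℚ)+7)*(3*l+5))) := by ring
      rw [e1, h1]
      have e2 : 3 * ((6*(l:ℚ)+7) * (6*l+10)) * (3^(l+1) * P1 l) * (fl l * (2*(4*(l:ℚ)+5)*(4*l+7))) =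
        3 * ((6*(l:ℚ)+7) * (6*l+10)) * (2*(4*(l:ℚ)+5)*(4*l+7)) * (3^(l+1) * P1 l * fl l) := by ring
      rw [e2, ih]
      rw [pow_succ (-1:ℚ) l]
      linear_combination (-(4 * (-1:ℚ)^l * (4*((l:ℚ)+1)+3) * 2 * ((2*l+1).factorial : ℚ) * (3*(6*(l:ℚ)+7)*(3*l+5)))) * (-1) * h2
    have hne : (3*(6*(l:ℚ)+7)*(3*l+5)) ≠ 0 := by positivity
    exact mul_left_cancel₀ hne key

section

variable {p : ℕ} [hp : Fact p.Prime] {c : ℕ} (hc : 6*c+1 = p) (hc1 : 1 ≤ c)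
include hc hc1

lemma shift_exp (e : ℚ) (he : e ∈ Zp p) (n : ℕ) (hn : n < p) :
    I p 2 (∏ t ∈ range n, (e * p + 3*((t:ℚ)+1)) - 3^n * (n.factorial : ℚ) * (1 + e * p * (1/3) * hs n)) := by
  have m3i : (1/3:ℚ) ∈ Zp p := by
    have := one_div_c hc hc1 (k := 3) (by omega) (by omega)
    exact_mod_cast this
  induction n with
  | zero => simp [hs]; exact I.zero 2
  | succ n ih =>
    have ih' := ih (by omega)
    have mh := hs_mem hc hc1 n (by omega)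
    rw [prod_range_succ, hs_succ, Nat.factorial_succ]
    have hn0 : ((n:ℚ)+1) ≠ 0 := by positivity
    have e1 : (∏ t ∈ range n, (e * p + 3*((t:ℚ)+1))) * (e * p + 3*((n:ℚ)+1)) -
        3^(n+1) * (((n+1) * n.factorial : ℕ) : ℚ) * (1 + e * p * (1/3) * (hs n + 1/((n:ℚ)+1))) =
        (∏ t ∈ range n, (e * p + 3*((t:ℚ)+1)) - 3^n * (n.factorial : ℚ) * (1 + e * p * (1/3) * hs n)) * (e * p + 3*((n:ℚ)+1))
        + (p:ℚ)^2 * (3^n * (n.factorial : ℚ) * (e^2 * (1/3) * hs n)) := by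
      push_cast
      field_simp
      ring
    rw [e1]
    apply I.add
    · apply ih'.mul_mem
      apply (Zp p).add_mem
      · exact (Zp p).mul_mem he (nat_mem _)
      · exact_mod_cast nat_mem (p := p) (3*(n+1))
    · apply (I.p_pow 2).mul_mem
      apply (Zp p).mul_mem
      · exact_mod_cast nat_mem (p := p) (3^n * n.factorial)
      · exact (Zp p).mul_mem ((Zp p).mul_mem ((Zp p).pow_mem he 2) m3i) mh

/-- the product without the factor `p` -/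
def Pn (c : ℕ) : ℚ := (∏ s ∈ range (2*c), (3*(s:ℚ)+1)) * ∏ t ∈ range c, (3*((2*c+1+t : ℕ):ℚ)+1)

omit hp hc1 in
lemma P1_eq {l : ℕ} (hl : 2*l+1 = 3*c) : P1 l = p * Pn c := by
  unfold P1 Pn
  rw [show 2*l+2 = 2*c+1+c by omega, prod_range_add, prod_range_succ, ← hc]
  push_cast
  ring

lemma Pn_exp : I p 2 (Pn c - 3^(3*c) * ((2*c).factorial : ℚ) * (c.factorial : ℚ) * (1 - (p:ℚ) * (1/3) * (hs (2*c) - hs c))) := by
  have m3i : (1/3:ℚ) ∈ Zp p := by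
    have := one_div_c hc hc1 (k := 3) (by omega) (by omega)
    exact_mod_cast this
  have mh2 := hs_mem hc hc1 (2*c) (by omega)
  have mh1 := hs_mem hc hc1 c (by omega)
  have hpq : (p:ℚ) = 6*(c:ℚ)+1 := by rw [← hc]; push_cast; ring
  have a1 := shift_exp hc hc1 (-1) ((Zp p).neg_mem (Zp p).one_mem) (2*c) (by omega)
  have a2 := shift_exp hc hc1 1 (Zp p).one_mem c (by omega)
  have b1 : ∏ s ∈ range (2*c), (3*(s:ℚ)+1) = ∏ t ∈ range (2*c), ((-1) * (p:ℚ) + 3*((t:ℚ)+1)) := by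
    rw [← prod_range_reflect]
    have : ∀ t ∈ range (2*c), (3*((2*c-1-t : ℕ):ℚ)+1) = (-1) * ((-1) * (p:ℚ) + 3*((t:ℚ)+1)) := by
      intro t ht
      rw [mem_range] at ht
      rw [show 2*c-1-t = 2*c-(t+1) by omega, Nat.cast_sub (by omega), hpq]
      push_cast; ring
    rw [prod_congr rfl this, prod_mul_distrib, prod_const, card_range, pow_mul]
    norm_num
  have b2 : ∏ t ∈ range c, (3*((2*c+1+t : ℕ):ℚ)+1) = ∏ t ∈ range c, (1 * (p:ℚ) + 3*((t:ℚ)+1)) := by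
    apply prod_congr rfl
    intro t _
    rw [hpq]; push_cast; ring
  unfold Pn
  rw [b1, b2]
  generalize ∏ t ∈ range (2*c), ((-1) * (p:ℚ) + 3*((t:ℚ)+1)) = X at *
  generalize hY : ∏ t ∈ range c, (1 * (p:ℚ) + 3*((t:ℚ)+1)) = Y at *
  have mY : Y ∈ Zp p := by
    rw [← hY]
    apply (Zp p).prod_mem
    intro t _
    exact (Zp p).add_mem ((Zp p).mul_mem (Zp p).one_mem (nat_mem _)) (by exact_mod_cast nat_mem (p := p) (3*(t+1)))
  have mF : (3^(2*c) * ((2*c).factorial : ℚ)) ∈ Zp p := by exact_mod_cast nat_mem (p := p) (3^(2*c) * (2*c).factorial)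
  have mG : (3^c * (c.factorial : ℚ)) ∈ Zp p := by exact_mod_cast nat_mem (p := p) (3^c * c.factorial)
  have mp' : (p:ℚ) ∈ Zp p := nat_mem _
  have e : X * Y - 3^(3*c) * ((2*c).factorial : ℚ) * (c.factorial : ℚ) * (1 - (p:ℚ) * (1/3) * (hs (2*c) - hs c)) =
      (X - 3^(2*c) * ((2*c).factorial : ℚ) * (1 + (-1) * p * (1/3) * hs (2*c))) * Y +
      (3^(2*c) * ((2*c).factorial : ℚ) * (1 + (-1) * p * (1/3) * hs (2*c))) * (Y - 3^c * (c.factorial : ℚ) * (1 + 1 * p * (1/3) * hs c)) +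
      (p:ℚ)^2 * (-(3^(2*c) * ((2*c).factorial : ℚ)) * (3^c * (c.factorial : ℚ)) * ((1/3) * hs (2*c) * ((1/3) * hs c))) := by
    have e3 : (3:ℚ)^(3*c) = 3^(2*c) * 3^c := by rw [← pow_add]; congr 1; ring
    rw [e3]; ring
  rw [e]
  apply I.add
  · apply I.add
    · exact a1.mul_mem mY
    · apply I.mem_mul _ a2
      apply (Zp p).mul_mem mF
      apply (Zp p).add_mem (Zp p).one_mem
      exact (Zp p).mul_mem ((Zp p).mul_mem ((Zp p).mul_mem ((Zp p).neg_mem (Zp p).one_mem) mp') m3i) mh2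
  · apply (I.p_pow 2).mul_mem
    exact (Zp p).mul_mem ((Zp p).mul_mem ((Zp p).neg_mem mF) mG) ((Zp p).mul_mem ((Zp p).mul_mem m3i mh2) ((Zp p).mul_mem m3i mh1))

/-- `P' T + (3c)! ≡ 0` for odd `c` -/
lemma PT (hodd : c % 2 = 1) : I p 2 (Pn c * (Pool.Agent.R856.CM.TT (3*c) : ℚ) + ((3*c).factorial : ℚ)) := by
  have hT := T_exp hc hc1
  have hP := Pn_exp hc hc1
  have hU := neg3_exp hc hc1
  have hw := ww_exp hc hc1
  have m3i : (1/3:ℚ) ∈ Zp p := by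
    have := one_div_c hc hc1 (k := 3) (by omega) (by omega)
    exact_mod_cast this
  have mh3 := hs_mem hc hc1 (3*c) (by omega)
  have mh2 := hs_mem hc hc1 (2*c) (by omega)
  have mh1 := hs_mem hc hc1 c (by omega)
  have mw := ww_mem hc hc1
  have mp' : (p:ℚ) ∈ Zp p := nat_mem _
  have hch : ((3*c).choose (2*c) : ℚ) * ((2*c).factorial : ℚ) * (c.factorial : ℚ) = ((3*c).factorial : ℚ) := by
    have := Nat.choose_mul_factorial_mul_factorial (show 2*c ≤ 3*c by omega)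
    rw [show 3*c - 2*c = c by omega] at this
    exact_mod_cast this
  have h3 : (3:ℚ)^(3*c) = -(-3)^(3*c) := by
    have : (-3:ℚ)^(3*c) = (-1)^(3*c) * 3^(3*c) := by rw [← mul_pow]; norm_num
    rw [this, Odd.neg_one_pow (Nat.odd_iff.mpr (by omega))]; ring
  have mT : (Pool.Agent.R856.CM.TT (3*c) : ℚ) ∈ Zp p := int_mem _
  have mF : ((2*c).factorial : ℚ) ∈ Zp p := nat_mem _
  have mG : (c.factorial : ℚ) ∈ Zp p := nat_mem _
  have mH : ((3*c).factorial : ℚ) ∈ Zp p := nat_mem _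
  have mC : ((3*c).choose (2*c) : ℚ) ∈ Zp p := nat_mem _
  have mN : (-3:ℚ)^(3*c) ∈ Zp p := (Zp p).pow_mem ((Zp p).neg_mem m3) _
  rw [h3] at hP
  generalize hs (3*c) = a3 at *
  generalize hs (2*c) = a2 at *
  generalize hs c = a1 at *
  generalize ww c = w at *
  generalize (Pool.Agent.R856.CM.TT (3*c) : ℚ) = T at *
  generalize Pn c = P at *
  generalize (-3:ℚ)^(3*c) = N at *
  generalize ((3*c).choose (2*c) : ℚ) = b at *
  generalize ((2*c).factorial : ℚ) = F at *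
  generalize (c.factorial : ℚ) = G at *
  generalize ((3*c).factorial : ℚ) = H at *
  have e : P * T + H =
      (P - -N * F * G * (1 - (p:ℚ) * (1/3) * (a2 - a1))) * T +
      (-N * F * G * (1 - (p:ℚ) * (1/3) * (a2 - a1))) * (T - b * (1 - (p:ℚ) * (1/3) * (a3 - a2))) +
      (-H) * ((N - (1 + (p:ℚ) * w)) * ((1 - (p:ℚ) * (1/3) * (a2 - a1)) * (1 - (p:ℚ) * (1/3) * (a3 - a2)))) +
      (-H) * (1/3) * ((p:ℚ)^1 * (3*w - (a3 - a1))) +
      (p:ℚ)^2 * (-H * ((1/3) * (a2 - a1) * ((1/3) * (a3 - a2)) * (1 + p * w) - w * ((1/3) * (a3 - a1)))) := by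
    rw [← hch]; ring
  rw [e]
  have mA : (1 - (p:ℚ) * (1/3) * (a2 - a1)) ∈ Zp p :=
    (Zp p).sub_mem (Zp p).one_mem ((Zp p).mul_mem ((Zp p).mul_mem mp' m3i) ((Zp p).sub_mem mh2 mh1))
  have mB : (1 - (p:ℚ) * (1/3) * (a3 - a2)) ∈ Zp p :=
    (Zp p).sub_mem (Zp p).one_mem ((Zp p).mul_mem ((Zp p).mul_mem mp' m3i) ((Zp p).sub_mem mh3 mh2))
  apply I.add
  · apply I.add
    · apply I.add
      · apply I.add
        · exact hP.mul_mem mT
        · exact I.mem_mul ((Zp p).mul_mem ((Zp p).mul_mem ((Zp p).mul_mem ((Zp p).neg_mem mN) mF) mG) mA) hT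
      · exact I.mem_mul ((Zp p).neg_mem mH) (hU.mul_mem ((Zp p).mul_mem mA mB))
    · have := (I.p_pow (p := p) 1).mul hw
      exact I.mem_mul ((Zp p).mul_mem ((Zp p).neg_mem mH) m3i) this
  · apply (I.p_pow 2).mul_mem
    apply (Zp p).mul_mem ((Zp p).neg_mem mH)
    apply (Zp p).sub_mem
    · exact (Zp p).mul_mem ((Zp p).mul_mem ((Zp p).mul_mem m3i ((Zp p).sub_mem mh2 mh1)) ((Zp p).mul_mem m3i ((Zp p).sub_mem mh3 mh2)))
        ((Zp p).add_mem (Zp p).one_mem ((Zp p).mul_mem mp' mw))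
    · exact (Zp p).mul_mem mw ((Zp p).mul_mem m3i ((Zp p).sub_mem mh3 mh1))

def Pz (c : ℕ) : ℕ := (∏ s ∈ range (2*c), (3*s+1)) * ∏ t ∈ range c, (3*(2*c+1+t)+1)

omit hp hc hc1 in
lemma Pz_cast (c : ℕ) : (Pz c : ℚ) = Pn c := by
  unfold Pz Pn; push_cast; rfl

lemma Pz_unit : ¬ p ∣ Pz c := by
  unfold Pz
  intro h
  have hpr := hp.out.prime
  rcases hpr.dvd_or_dvd h with h | h
  · rw [hpr.dvd_finsetProd_iff] at h
    obtain ⟨s, hs, hd⟩ := h
    rw [mem_range] at hs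
    exact absurd (Nat.le_of_dvd (by omega) hd) (by omega)
  · rw [hpr.dvd_finsetProd_iff] at h
    obtain ⟨t, ht, hd⟩ := h
    rw [mem_range] at ht
    have h2 : p ∣ 3*(t+1) := by
      have : 3*(2*c+1+t)+1 = p + 3*(t+1) := by omega
      rw [this] at hd
      exact (Nat.dvd_add_right (dvd_refl p)).mp hd
    exact absurd (Nat.le_of_dvd (by omega) h2) (by omega)

theorem t_PROD {l : ℕ} (hl : 2*l+1 = 3*c) (hK : Kl l ∈ Zp p) : I p 2 (fl l - 2 * Kl l * Sg1 (3*c)) := by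
  have hex := exact_rel l
  have hP1 := P1_eq (p := p) hc hl
  have hpt := PT hc hc1 (by omega)
  obtain ⟨hw, -, -⟩ := weighted (3*c) (by omega)
  rw [show (3*c+1)/2 = l+1 by omega] at hw
  have hp0 : (p:ℚ) ≠ 0 := by exact_mod_cast hp.out.ne_zero
  have hp4 : (4*(l:ℚ)+3) = p := by
    have : 4*l+3 = p := by omega
    rw [← this]; push_cast; ring
  rw [hP1, hp4, hl] at hex
  have hex2 : 3^(l+1) * Pn c * fl l = 4 * (-1)^l * ((3*c).factorial : ℚ) * Kl l := by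
    apply mul_left_cancel₀ hp0
    linear_combination hex
  have h3 : (-3:ℚ)^(l+1) = -((-1)^l * 3^(l+1)) := by
    rw [show (-3:ℚ) = (-1) * 3 by norm_num, mul_pow, pow_succ (-1:ℚ)]; ring
  rw [h3] at hw
  have hs1 : ((-1:ℚ)^l) * (-1)^l = 1 := by rw [← mul_pow]; norm_num
  have key : ((Pz c * 3^(l+1) : ℕ) : ℚ) * (fl l - 2 * Kl l * Sg1 (3*c)) =
      (4 * (-1)^l * Kl l) * (Pn c * (Pool.Agent.R856.CM.TT (3*c) : ℚ) + ((3*c).factorial : ℚ)) := by
    push_cast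
    rw [Pz_cast]
    linear_combination hex2 + 2 * (-1:ℚ)^l * Kl l * Pn c * hw + 2 * Kl l * Pn c * 3^(l+1) * Sg1 (3*c) * hs1
  have hn : ¬ p ∣ Pz c * 3^(l+1) := by
    intro h
    rcases (hp.out.dvd_mul).mp h with h | h
    · exact Pz_unit hc hc1 h
    · have := hp.out.dvd_of_dvd_pow h
      exact absurd (Nat.le_of_dvd (by norm_num) this) (by omega)
  apply I.cancel hn
  rw [key]
  apply I.mem_mul _ hpt
  apply (Zp p).mul_mem _ hK
  apply (Zp p).mul_mem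
  · exact_mod_cast nat_mem (p := p) 4
  · exact (Zp p).pow_mem ((Zp p).neg_mem (Zp p).one_mem) _

end

end Pool.Agent.R439.LW
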