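import Pool.Agent.R439.LW.Stm
import Pool.Agent.R856.CM12

set_option autoImplicit false

namespace Pool.Agent.R439.LW

open Finset Polynomial Pool.Agent.Helper857.Pad Pool.Agent.R856.CM Pool.Agent.R856.TK

section

variable {p : ℕ} [hp : Fact p.Prime] {m : ℕ} (hm : 2*m+1 = p) (hm2 : 2 ≤ m)
include hm hm2

lemma quart_mem (k : ℕ) : (-1/4:ℚ)^k ∈ Zp p := by
  have h2 := half' hm hm2
  apply (Zp p).pow_mem
  have e : (-1/4:ℚ) = -((2:ℚ)⁻¹ * (2:ℚ)⁻¹) := by norm_num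
  rw [e]
  exact (Zp p).neg_mem ((Zp p).mul_mem h2 h2)

omit hp hm hm2 in
lemma term_eq (v : ℚ) (k : ℕ) : v * ((2*k).choose k : ℚ)^2 / 64^k =
    (v * (-1/4)^k) * (((2*k).choose k : ℚ)^2 / (-16)^k) := by
  have e1 : (64:ℚ)^k = (-4)^k * (-16)^k := by rw [← mul_pow]; norm_num
  have e2 : (-1/4:ℚ)^k = 1 / (-4)^k := by rw [one_div, ← inv_pow]; norm_num
  have h1 : (-4:ℚ)^k ≠ 0 := pow_ne_zero _ (by norm_num)
  have h2 : (-16:ℚ)^k ≠ 0 := pow_ne_zero _ (by norm_num)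
  rw [e1, e2]
  field_simp

theorem t_RED1 : I p 2 (∑ k ∈ range p, ((uL k : ℚ) * ((2*k).choose k : ℚ)^2 / 64^k) - Wm m) := by
  have h := red hm hm2 (fun k => (uL k : ℚ) * (-1/4)^k) (by
    intro k _
    exact (Zp p).mul_mem (int_mem _) (quart_mem hm hm2 k))
  have e : ∑ k ∈ range p, ((uL k : ℚ) * ((2*k).choose k : ℚ)^2 / 64^k) =
      ∑ k ∈ range p, ((uL k : ℚ) * (-1/4)^k) * (((2*k).choose k : ℚ)^2 / (-16)^k) :=
    sum_congr rfl (fun k _ => term_eq _ k)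
  rw [e]
  exact h

theorem t_RED2 : I p 2 (∑ k ∈ range p, ((k:ℚ) * (uL k : ℚ) * ((2*k).choose k : ℚ)^2 / 64^k) - Vm m) := by
  have h := red hm hm2 (fun k => (k:ℚ) * (uL k : ℚ) * (-1/4)^k) (by
    intro k _
    exact (Zp p).mul_mem ((Zp p).mul_mem (nat_mem _) (int_mem _)) (quart_mem hm hm2 k))
  have e : ∑ k ∈ range p, ((k:ℚ) * (uL k : ℚ) * ((2*k).choose k : ℚ)^2 / 64^k) =
      ∑ k ∈ range p, ((k:ℚ) * (uL k : ℚ) * (-1/4)^k) * (((2*k).choose k : ℚ)^2 / (-16)^k) :=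
    sum_congr rfl (fun k _ => term_eq _ k)
  rw [e]
  exact h

lemma Wm_mem : Wm m ∈ Zp p := by
  unfold Wm
  apply (Zp p).sum_mem
  intro k _
  unfold aa
  exact (Zp p).mul_mem ((Zp p).mul_mem (int_mem _) (quart_mem hm hm2 k)) ((Zp p).mul_mem (nat_mem _) (nat_mem _))

lemma Vm_mem : Vm m ∈ Zp p := by
  unfold Vm
  apply (Zp p).sum_mem
  intro k _
  unfold aa
  exact (Zp p).mul_mem ((Zp p).mul_mem ((Zp p).mul_mem (nat_mem _) (int_mem _)) (quart_mem hm hm2 k)) ((Zp p).mul_mem (nat_mem _) (nat_mem _))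

/-- the second question from the first -/
theorem second (hSQ : S_SQ) (hLIN : S_LIN) (hodd : m % 2 = 1) (y : ℤ) (hy : ¬ (p:ℤ) ∣ y)
    (hW : I p 2 (Wm m - (2*y - p/(6*y)))) : I p 2 (Vm m - y) := by
  obtain ⟨s1, s2⟩ := hSQ m hodd
  have hl := hLIN p m hm hm2 hodd
  have mV := Vm_mem hm hm2
  have mW := Wm_mem hm hm2
  have n2 : ¬ p ∣ 2 := fun h => absurd (Nat.le_of_dvd (by norm_num) h) (by omega)
  have n3 : ¬ p ∣ 3 := fun h => absurd (Nat.le_of_dvd (by norm_num) h) (by omega)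
  have hy0 : (y:ℚ) ≠ 0 := by
    intro h0
    apply hy
    have : y = 0 := by exact_mod_cast h0
    rw [this]; exact dvd_zero _
  have myi : ((y:ℚ))⁻¹ ∈ Zp p := inv_int_mem hy
  have my : (y:ℚ) ∈ Zp p := int_mem _
  have mp' : (p:ℚ) ∈ Zp p := nat_mem _
  have m2i : ((2:ℕ):ℚ)⁻¹ ∈ Zp p := inv_nat_mem n2
  have m3i : ((3:ℕ):ℚ)⁻¹ ∈ Zp p := inv_nat_mem n3
  have m2 : (2:ℚ) ∈ Zp p := by exact_mod_cast nat_mem (p := p) 2
  have m3 : (3:ℚ) ∈ Zp p := by exact_mod_cast nat_mem (p := p) 3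
  push_cast at m2i m3i
  have mw0 : (2*(y:ℚ) - p/(6*y)) ∈ Zp p := by
    have e : (2*(y:ℚ) - p/(6*y)) = 2*y - p * ((2:ℚ)⁻¹ * (3:ℚ)⁻¹ * (y:ℚ)⁻¹) := by
      field_simp; ring
    rw [e]
    exact (Zp p).sub_mem ((Zp p).mul_mem m2 my) ((Zp p).mul_mem mp' ((Zp p).mul_mem ((Zp p).mul_mem m2i m3i) myi))
  -- (12 y^2 - p) (V - y) 
  have key : I p 2 ((12*(y:ℚ)^2 - p) * (Vm m - y)) := by
    have e : (12*(y:ℚ)^2 - p) * (Vm m - y) =
        (Wm m - (2*y - p/(6*y))) * ((-6 * Vm m + 3 * (Wm m + (2*y - p/(6*y)))) * y)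
        - (6 * Dm m + Tm m + p) * y
        + (p:ℚ)^2 * ((2:ℚ)⁻¹ * (2:ℚ)⁻¹ * (3:ℚ)⁻¹ * (y:ℚ)⁻¹) := by
      have eD : Dm m = - (Wm m * Vm m) := by rw [s2]; ring
      rw [eD, ← s1]
      field_simp
      ring
    rw [e]
    apply I.add
    · apply I.sub
      · apply hW.mul_mem
        apply (Zp p).mul_mem _ my
        apply (Zp p).add_mem
        · apply (Zp p).mul_mem _ mV
          have : (-6:ℚ) = -(2*3) := by norm_num
          rw [this]; exact (Zp p).neg_mem ((Zp p).mul_mem m2 m3)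
        · exact (Zp p).mul_mem m3 ((Zp p).add_mem mW mw0)
      · exact hl.mul_mem my
    · exact (I.p_pow 2).mul_mem ((Zp p).mul_mem ((Zp p).mul_mem ((Zp p).mul_mem m2i m2i) m3i) myi)
  -- the factor is a unit
  have hu : ¬ (p:ℤ) ∣ (12*y^2 - p) := by
    intro h
    have h1 : (p:ℤ) ∣ 12*y^2 := by
      have := dvd_add h (dvd_refl (p:ℤ))
      simpa using this
    have hpI : Prime (p:ℤ) := Nat.prime_iff_prime_int.mp hp.out
    rcases hpI.dvd_or_dvd h1 with h2 | h2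
    · have h3 : p ∣ 12 := by exact_mod_cast h2
      have h4 : p ∣ 2^2*3 := by norm_num; exact h3
      rcases (hp.out.dvd_mul).mp h4 with h5 | h5
      · exact n2 (hp.out.dvd_of_dvd_pow h5)
      · exact n3 h5
    · exact hy (hpI.dvd_of_dvd_pow h2)
  have hui := inv_int_mem hu
  have hne : ((12*y^2 - p : ℤ) : ℚ) ≠ 0 := by
    intro h0
    apply hu
    have : (12*y^2 - p : ℤ) = 0 := by exact_mod_cast h0
    rw [this]; exact dvd_zero _
  have := I.mem_mul hui key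
  have e2 : ((12*y^2 - p : ℤ) : ℚ)⁻¹ * ((12*(y:ℚ)^2 - p) * (Vm m - y)) = Vm m - y := by
    rw [← mul_assoc]
    have : (12*(y:ℚ)^2 - p) = ((12*y^2 - p : ℤ) : ℚ) := by push_cast; ring
    rw [this, inv_mul_cancel₀ hne, one_mul]
  rwa [e2] at this

end

end Pool.Agent.R439.LW
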