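import Pool.Agent.R439.LW.P_EV
import Pool.Agent.R439.LW.P_PROD
import Pool.Agent.R439.LW.P_RED

set_option autoImplicit false

namespace Pool.Agent.R439.LW

open Finset Pool.Agent.Helper857.Pad Pool.Agent.R856.CM Pool.Agent.R856.TK

section

variable {p : ℕ} [hp : Fact p.Prime] {c : ℕ} (hc : 6*c+1 = p) (hc1 : 1 ≤ c)
include hc hc1

omit hc hc1 in
lemma y_unit (x y : ℤ) (hxy : (p:ℤ) = x^2 + 3*y^2) : ¬ (p:ℤ) ∣ y := by
  intro h
  have hpI : Prime (p:ℤ) := Nat.prime_iff_prime_int.mp hp.out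
  have h1 : (p:ℤ) ∣ x^2 := by
    have : x^2 = (p:ℤ) - 3*y^2 := by rw [hxy]; ring
    rw [this]
    exact dvd_sub (dvd_refl _) (Dvd.dvd.mul_left (dvd_pow h (by norm_num)) 3)
  have h2 := hpI.dvd_of_dvd_pow h1
  have h3 := Int.dvd_coe_gcd h2 h
  rw [cop x y hxy] at h3
  have h4 : p ∣ 1 := by exact_mod_cast h3
  exact hp.out.one_lt.ne' (Nat.dvd_one.mp h4)

theorem first (hPOLY : S_POLY) (hREV : S_REV) (hSTR : S_STR) (hEXP : S_EXP) (hKMOD : S_KMOD)
    (l : ℕ) (hl : 2*l+1 = 3*c) (x y : ℤ) (hy : y % 4 = 1) (hxy : (p:ℤ) = x^2 + 3*y^2) :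
    I p 2 (Wm (3*c) - (2*y - p/(6*y))) := by
  have hp4 : 4*l+3 = p := by omega
  have hl1 : 1 ≤ l := by omega
  obtain ⟨-, e2, e3, mA, mB, mC⟩ := hEXP p l hp4 hl1
  obtain ⟨k1, mK⟩ := hKMOD p l hp4 hl1
  have hP := t_PROD hc hc1 hl mK
  obtain ⟨hW, hS⟩ := t_EV hPOLY l
  rw [hREV l, hl] at hS
  rw [hl] at hW
  obtain ⟨hA, -⟩ := partA hc hc1 l hp4.symm x y hy hxy
  have hyu := y_unit x y hxy
  have hy0 : (y:ℚ) ≠ 0 := by
    intro h0
    apply hyu
    have : y = 0 := by exact_mod_cast h0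
    rw [this]; exact dvd_zero _
  have myi : ((y:ℚ))⁻¹ ∈ Zp p := inv_int_mem hyu
  have my : (y:ℚ) ∈ Zp p := int_mem _
  have mp' : (p:ℚ) ∈ Zp p := nat_mem _
  have m3i : (1/3:ℚ) ∈ Zp p := by
    have := one_div_c hc hc1 (k := 3) (by omega) (by omega)
    exact_mod_cast this
  have m2i : (1/2:ℚ) ∈ Zp p := by
    have := one_div_c hc hc1 (k := 2) (by omega) (by omega)
    exact_mod_cast this
  rw [hSTR l] at e2
  have msg : Sg1 (3*c) ∈ Zp p := by
    rw [← Sz_cast]; exact int_mem _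
  have he : ((-1:ℚ)^(l+1)) * (-1)^(l+1) = 1 := by rw [← mul_pow]; norm_num
  have he' : ((-1:ℚ)^l) * (-1)^(l+1) = -1 := by
    rw [pow_succ]
    have : ((-1:ℚ)^l) * (-1)^l = 1 := by rw [← mul_pow]; norm_num
    linear_combination (-1) * this
  have me : ((-1:ℚ)^(l+1)) ∈ Zp p := (Zp p).pow_mem ((Zp p).neg_mem (Zp p).one_mem) _
  have me' : ((-1:ℚ)^l) ∈ Zp p := (Zp p).pow_mem ((Zp p).neg_mem (Zp p).one_mem) _
  generalize Sg1 (3*c) = σ at *
  generalize (-1:ℚ)^(l+1) = e at *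
  generalize (-1:ℚ)^l = e' at *
  generalize Al l = A at *
  generalize Bl l = B at *
  generalize Kl l = K at *
  generalize fl l = f at *
  -- A² - σ² ≡ 0
  have q1 : I p 2 (A^2 - σ^2) := by
    have : A^2 - σ^2 = (A^2 - B*f) + B*(f - 2*K*σ) := by rw [hS]; ring
    rw [this]
    exact e2.add (I.mem_mul mB hP)
  have q2 : I p 1 (A - e*σ) := by
    have : A - e*σ = (A - B) - e * ((2*K - e)*B) + (1 - e*e) * B := by rw [hS]; ring
    rw [this, he, sub_self, zero_mul, add_zero]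
    exact e3.sub (I.mem_mul me (k1.mul_mem mB))
  have q3 : I p 1 (σ - e' * (4*y)) := by
    have : σ - e' * (4*y) = (σ - e' * (4*y - p/(3*y))) + (p:ℚ)^1 * (-(e' * ((1/3) * (y:ℚ)⁻¹))) := by
      field_simp; ring
    rw [this]
    exact (hA.mono (by norm_num)).add ((I.p_pow 1).mul_mem ((Zp p).neg_mem ((Zp p).mul_mem me' ((Zp p).mul_mem m3i myi))))
  have q4 : I p 2 (((8*y : ℤ) : ℚ) * (A - e*σ)) := by
    have : ((8*y : ℤ) : ℚ) * (A - e*σ) = -((A^2 - σ^2) - (A - e*σ)^2 - 2 * e * ((A - e*σ) * (σ - e' * (4*y))))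
        + (1 + e'*e) * (8 * y * (A - e*σ)) + (1 - e*e) * (-σ^2) := by
      push_cast; ring
    rw [this, he, he', sub_self, zero_mul, add_zero]
    norm_num
    have h2 : I p 2 ((A - e*σ)^2) := q2.pow 2
    have h3 : I p 2 ((A - e*σ) * (σ - e' * (4*y))) := q2.mul q3
    have m2 : (2:ℚ) ∈ Zp p := by exact_mod_cast nat_mem (p := p) 2
    have := ((q1.sub h2).sub (I.mem_mul ((Zp p).mul_mem m2 me) h3)).neg
    have e5 : -((A^2 - σ^2) - (A - e*σ)^2 - 2 * e * ((A - e*σ) * (σ - e' * (4*y)))) =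
      2 * e * ((A - e * σ) * (σ - e' * (4 * ↑y))) - (A ^ 2 - σ ^ 2 - (A - e * σ) ^ 2) := by ring
    rw [e5] at this
    exact this
  have hu8 : ¬ (p:ℤ) ∣ 8*y := by
    intro h
    have hpI : Prime (p:ℤ) := Nat.prime_iff_prime_int.mp hp.out
    rcases hpI.dvd_or_dvd h with h2 | h2
    · have h3 : p ∣ 8 := by exact_mod_cast h2
      have h4 : p ∣ 2^3 := by norm_num; exact h3
      have h5 := hp.out.dvd_of_dvd_pow h4
      exact absurd (Nat.le_of_dvd (by norm_num) h5) (by omega)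
    · exact hyu h2
  have q5 : I p 2 (A - e*σ) := by
    have h8 : ((8*y : ℤ) : ℚ) ≠ 0 := by
      push_cast
      exact mul_ne_zero (by norm_num) hy0
    have := I.mem_mul (inv_int_mem hu8) q4
    rwa [← mul_assoc, inv_mul_cancel₀ h8, one_mul] at this
  have e6 : Wm (3*c) - (2*y - p/(6*y)) = (-(1/2)) * ((A - e*σ) + e * (σ - e' * (4*y - p/(3*y)))) +
      (1/2) * ((1 + e'*e) * -(4*y - p/(3*y))) := by
    rw [hW]; field_simp; ring
  rw [e6, he']
  norm_num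
  have e7 : (A - e * σ + e * (σ - e' * (4 * (y:ℚ) - p / (3 * y)))) / 2 = (1/2) * (A - e * σ + e * (σ - e' * (4 * (y:ℚ) - p / (3 * y)))) := by ring
  have := (I.mem_mul m2i (q5.add (I.mem_mul me hA))).neg
  rw [← e7] at this
  convert this using 1
  ring

end

end Pool.Agent.R439.LW
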