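import Pool.Agent.R439.LW.Stm
import Pool.Agent.R856.CM12

set_option autoImplicit false

namespace Pool.Agent.R439.LW

open Finset Polynomial Pool.Agent.Helper857.Pad Pool.Agent.R856.CM

lemma ev (h : S_POLY) (l : ℕ) (w : ℂ) :
    fv (2*l+1) w = (1+2*w) * ∑ k ∈ range (l+1), ((gg l k : ℚ) : ℂ) * (-4*(w+w^2))^k := by
  have h1 := congrArg (aeval w) (h l)
  rw [ff_aeval, map_mul, aeval_comp] at h1
  have e : fv (2*l+1) w = ∑ k ∈ range (2*l+1+1), (((2*l+1).choose k : ℂ) * ((2*l+1+k).choose k : ℂ)) * w^k := rfl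
  rw [e, h1]
  simp only [map_add, map_one, map_mul, map_ofNat, aeval_X, map_pow, aeval_C, map_sum]
  congr 1
  apply sum_congr rfl
  intro k _
  simp

lemma uL_binet (s : ℂ) (hs : s^2 = 3) (k : ℕ) : (uL k : ℂ) * (2*s) = (2+s)^k - (2-s)^k := by
  induction k using Nat.strong_induction_on with
  | _ k ih =>
    match k with
    | 0 => simp [uL]
    | 1 => simp [uL]; ring
    | (k+2) =>
      have h1 := ih (k+1) (by omega)
      have h0 := ih k (by omega)
      have e : (uL (k+2) : ℂ) = 4 * (uL (k+1) : ℂ) - (uL k : ℂ) := by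
        rw [uL]; push_cast; ring
      rw [e]
      have e1 : (2+s)^(k+2) = 4 * (2+s)^(k+1) - (2+s)^k := by
        linear_combination (2+s)^k * hs
      have e2 : (2-s)^(k+2) = 4 * (2-s)^(k+1) - (2-s)^k := by
        linear_combination (2-s)^k * hs
      rw [e1, e2]
      linear_combination 4 * h1 - h0

theorem t_EV (h : S_POLY) (l : ℕ) : Wm (2*l+1) = -(Al l)/2 ∧ Sg1 (2*l+1) = 2 * Rl l := by
  constructor
  · obtain ⟨s, hs⟩ : ∃ s : ℂ, s^2 = 3 := by
      refine ⟨(Real.sqrt 3 : ℂ), ?_⟩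
      rw [← Complex.ofReal_pow, Real.sq_sqrt (by norm_num)]; norm_num
    have hs0 : s ≠ 0 := by
      rintro rfl; norm_num at hs
    have ha := ev h l (-(2+s)/4)
    have hb := ev h l (-(2-s)/4)
    have qa : -4*(-(2+s)/4+(-(2+s)/4)^2) = 1/4 := by linear_combination (-1/4) * hs
    have qb : -4*(-(2-s)/4+(-(2-s)/4)^2) = 1/4 := by linear_combination (-1/4) * hs
    rw [qa] at ha
    rw [qb] at hb
    have eA : ((Al l : ℚ) : ℂ) = ∑ k ∈ range (l+1), ((gg l k : ℚ) : ℂ) * (1/4)^k := by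
      unfold Al; push_cast; rfl
    rw [← eA] at ha hb
    have eW : ((Wm (2*l+1) : ℚ) : ℂ) * (2*s) = fv (2*l+1) (-(2+s)/4) - fv (2*l+1) (-(2-s)/4) := by
      unfold Wm fv
      rw [← sum_sub_distrib]
      push_cast
      rw [sum_mul]
      apply sum_congr rfl
      intro k _
      have hk := uL_binet s hs k
      have e1 : (-(2+s)/4)^k = (-1/4)^k * (2+s)^k := by rw [← mul_pow]; congr 1; ring
      have e2 : (-(2-s)/4)^k = (-1/4)^k * (2-s)^k := by rw [← mul_pow]; congr 1; ring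
      rw [e1, e2]
      unfold aa
      push_cast
      linear_combination ((-1/4)^k * (((2*l+1).choose k : ℂ) * ((2*l+1+k).choose k : ℂ))) * hk
    rw [ha, hb] at eW
    have e3 : ((Wm (2*l+1) : ℚ) : ℂ) = ((-(Al l)/2 : ℚ) : ℂ) := by
      push_cast
      apply mul_right_cancel₀ (b := 2*s) (by simpa using hs0)
      rw [eW]; ring
    exact_mod_cast e3
  · obtain ⟨w, hw⟩ : ∃ w : ℂ, w^2 + w + 1 = 0 := by
      obtain ⟨s, hs⟩ : ∃ s : ℂ, s^2 = -3 := by
        refine ⟨Complex.I * (Real.sqrt 3 : ℂ), ?_⟩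
        rw [mul_pow, Complex.I_sq, ← Complex.ofReal_pow, Real.sq_sqrt (by norm_num)]; norm_num
      exact ⟨(-1 + s)/2, by linear_combination hs/4⟩
    have h3 := w3 hw
    have ha := ev h l w
    have hb := ev h l (w^2)
    have qa : -4*(w+w^2) = 4 := by linear_combination (-4) * hw
    have qb : -4*(w^2+(w^2)^2) = 4 := by linear_combination (-4) * hw - 4 * w * h3
    rw [qa] at ha
    rw [qb] at hb
    have hd := fv_diff (2*l+1) hw
    have eR : ((Rl l : ℚ) : ℂ) = ∑ k ∈ range (l+1), ((gg l k : ℚ) : ℂ) * 4^k := by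
      unfold Rl; push_cast; rfl
    rw [← eR] at ha hb
    rw [ha, hb] at hd
    have eS : ((Sg1 (2*l+1) : ℚ) : ℂ) = ∑ k ∈ range (2*l+1+1), (chi3 k : ℂ) * (((2*l+1).choose k : ℂ) * ((2*l+1+k).choose k : ℂ)) := by
      unfold Sg1 aa; push_cast; rfl
    rw [← eS] at hd
    have hne : 2*w+1 ≠ 0 := by
      intro h0
      have : (2*w+1)^2 = -3 := by linear_combination 4 * hw
      rw [h0] at this; norm_num at this
    have e3 : ((Sg1 (2*l+1) : ℚ) : ℂ) = ((2 * Rl l : ℚ) : ℂ) := by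
      push_cast
      apply mul_left_cancel₀ hne
      rw [← hd]
      linear_combination (-2 : ℂ) * ((Rl l : ℚ) : ℂ) * hw
    exact_mod_cast e3

end Pool.Agent.R439.LW
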