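import Pool.Agent.R439.LW.Stm

set_option autoImplicit false

namespace Pool.Agent.R439.LW

open Finset Polynomial Pool.Agent.Helper857.Pad Pool.Agent.R856.CM

namespace KMOD

variable {p : ℕ} [hp : Fact p.Prime]

lemma I_of_dvd {z : ℤ} (h : (p:ℤ) ∣ z) : I p 1 (z:ℚ) := by
  obtain ⟨w, rfl⟩ := h
  exact ⟨w, int_mem w, by push_cast; ring⟩

lemma prodcong (x y : ℕ → ℚ) (n : ℕ) (hy : ∀ i < n, y i ∈ Zp p)
    (h : ∀ i < n, I p 1 (x i - y i)) :
    I p 1 (∏ i ∈ range n, x i - ∏ i ∈ range n, y i) ∧ (∏ i ∈ range n, x i) ∈ Zp p ∧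
      (∏ i ∈ range n, y i) ∈ Zp p := by
  induction n with
  | zero =>
    rw [prod_range_zero, prod_range_zero, sub_self]
    exact ⟨I.zero 1, (Zp p).one_mem, (Zp p).one_mem⟩
  | succ n ih =>
    obtain ⟨h1, h2, h3⟩ := ih (fun i hi => hy i (by omega)) (fun i hi => h i (by omega))
    have h4 := h n (by omega)
    have h5 := hy n (by omega)
    have h6 : x n ∈ Zp p := by
      have := (Zp p).add_mem h4.mem h5
      rwa [sub_add_cancel] at this
    rw [prod_range_succ, prod_range_succ]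
    refine ⟨?_, (Zp p).mul_mem h2 h6, (Zp p).mul_mem h3 h5⟩
    have e : (∏ i ∈ range n, x i) * x n - (∏ i ∈ range n, y i) * y n =
        (∏ i ∈ range n, x i - ∏ i ∈ range n, y i) * x n + (∏ i ∈ range n, y i) * (x n - y n) := by
      ring
    rw [e]
    exact (h1.mul_mem h6).add (I.mem_mul h3 h4)

lemma two_pow (l : ℕ) (hl : 4*l+3 = p) : (p:ℤ) ∣ 2^(2*l+1) - (-1)^(l+1) := by
  have hp2 : p ≠ 2 := by omega
  have h1 := legendreSym.eq_pow p 2
  have h2 := legendreSym.at_two (p := p) hp2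
  have hdiv : p / 2 = 2*l+1 := by omega
  have h3 : ZMod.χ₈ (p : ZMod 8) = (-1)^(l+1) := by
    rw [ZMod.χ₈_nat_eq_if_mod_eight]
    rcases Nat.even_or_odd l with ⟨k, hk⟩ | ⟨k, hk⟩
    · have e1 : p % 8 = 3 := by omega
      have e2 : p % 2 = 1 := by omega
      have e3 : Odd (l+1) := ⟨k, by omega⟩
      rw [e3.neg_one_pow, if_neg (by omega), if_neg (by omega)]
    · have e1 : p % 8 = 7 := by omega
      have e3 : Even (l+1) := ⟨k+1, by omega⟩
      rw [e3.neg_one_pow, if_neg (by omega), if_pos (by omega)]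
  rw [h2, h3, hdiv] at h1
  rw [← ZMod.intCast_eq_intCast_iff_dvd_sub]
  push_cast at h1 ⊢
  exact h1

end KMOD

open KMOD in
theorem t_KMOD : S_KMOD := by
  intro p hp l hl h1
  have hu : ∀ i < l, (((i:ℚ)+1))⁻¹ ∈ Zp p := fun i hi => by
    have h2 : ¬ p ∣ (i+1) := fun h => absurd (Nat.le_of_dvd (by omega) h) (by omega)
    have := inv_nat_mem (p := p) h2
    push_cast at this
    exact this
  let x : ℕ → ℚ := fun i => ((i:ℚ) - l) * ((l:ℚ) + 3/2 + i) / ((i:ℚ)+1)^2 * 4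
  let y : ℕ → ℚ := fun i => 4 * (((l:ℚ) - i) * ((i:ℚ)+1)⁻¹)^2
  have hy : ∀ i < l, y i ∈ Zp p := by
    intro i hi
    refine (Zp p).mul_mem (by exact_mod_cast nat_mem (p := p) 4) ((Zp p).pow_mem ((Zp p).mul_mem ?_ (hu i hi)) 2)
    exact (Zp p).sub_mem (nat_mem l) (nat_mem i)
  have hxy : ∀ i < l, I p 1 (x i - y i) := by
    intro i hi
    refine ⟨2 * ((i:ℚ) - l) * (((i:ℚ)+1)⁻¹)^2, ?_, ?_⟩
    · refine (Zp p).mul_mem ((Zp p).mul_mem (by exact_mod_cast nat_mem (p := p) 2) ((Zp p).sub_mem (nat_mem i) (nat_mem l)))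
        ((Zp p).pow_mem (hu i hi) 2)
    · have h3 : (p:ℚ) = 4*l+3 := by rw [← hl]; push_cast; ring
      have h4 : (i:ℚ) + 1 ≠ 0 := by positivity
      simp only [x, y]
      rw [h3, pow_one]
      field_simp
      ring
  obtain ⟨h3, h4, _⟩ := prodcong x y l hy hxy
  have hK : ∏ i ∈ range l, x i = Kl l := by
    simp only [x]
    rw [prod_mul_distrib, prod_const, card_range]
    rfl
  have hY : ∏ i ∈ range l, y i = 4^l := by
    simp only [y]
    rw [prod_mul_distrib, prod_const, card_range, prod_pow, prod_mul_distrib, prod_inv_distrib]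
    have h5 : ∏ i ∈ range l, ((l:ℚ) - i) = ∏ i ∈ range l, ((i:ℚ)+1) := by
      rw [← prod_range_reflect]
      refine prod_congr rfl fun i hi => ?_
      have hi' := mem_range.mp hi
      rw [Nat.sub_sub, Nat.cast_sub (by omega)]
      push_cast
      ring
    rw [h5, mul_inv_cancel₀, one_pow, mul_one]
    rw [prod_ne_zero_iff]
    intro i _
    positivity
  rw [hK, hY] at h3
  rw [hK] at h4
  refine ⟨?_, h4⟩
  have h5 := I_of_dvd (two_pow l hl)
  have h6 : 2 * Kl l - (-1)^(l+1) = 2 * (Kl l - 4^l) + ((2^(2*l+1) - (-1)^(l+1) : ℤ) : ℚ) := by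
    have h7 : (2:ℚ)^(2*l+1) = 2 * 4^l := by
      rw [pow_succ, pow_mul]; norm_num; ring
    push_cast
    rw [h7]
    ring
  rw [h6]
  exact (I.mem_mul (by exact_mod_cast nat_mem (p := p) 2) h3).add h5

end Pool.Agent.R439.LW
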