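import Pool.Agent.R439.LW.Stm

set_option autoImplicit false

namespace Pool.Agent.R439.LW

open Finset Polynomial Pool.Agent.Helper857.Pad Pool.Agent.R856.CM

namespace LIN

/-- the terms of `Tm` -/
def tau (m k : ℕ) : ℚ := cc m k * (-1/16)^k

lemma tau_zero (m : ℕ) : tau m 0 = 1 := by simp [tau, cc]

lemma tau_succ (m k : ℕ) : 8 * ((k:ℚ)+1)^3 * tau m (k+1) =
    ((k:ℚ) - m) * ((k:ℚ)+m+1) * (2*k+1) * tau m k := by
  have h := cc_succ m k
  unfold tau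
  rw [pow_succ]
  linear_combination (8 * (-1/16)^k * (-1/16) : ℚ) * h

/-- `cc` in the first variable -/
lemma cc_m (m k : ℕ) (hk : k ≤ m) : cc (m+1) k * ((m:ℚ)+1-k) = cc m k * ((m:ℚ)+1+k) := by
  have h1 : ((m+1).choose k : ℚ) * ((m:ℚ)+1-k) = (m.choose k : ℚ) * ((m:ℚ)+1) := by
    have := Nat.choose_mul_succ_eq m k
    have h2 : ((m.choose k * (m+1) : ℕ) : ℚ) = (((m+1).choose k * (m+1-k) : ℕ) : ℚ) := by
      exact_mod_cast this
    rw [Nat.cast_mul, Nat.cast_mul, Nat.cast_sub (by omega)] at h2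
    push_cast at h2
    linarith
  have h3 : ((m+1+k).choose k : ℚ) * ((m:ℚ)+1) = ((m+k).choose k : ℚ) * ((m:ℚ)+1+k) := by
    have := Nat.choose_mul_succ_eq (m+k) k
    rw [show m + k + 1 - k = m + 1 by omega, show m + k + 1 = m + 1 + k by omega] at this
    have h2 : (((m+k).choose k * (m+1+k) : ℕ) : ℚ) = (((m+1+k).choose k * (m+1) : ℕ) : ℚ) := by
      exact_mod_cast this
    push_cast at h2
    linarith
  have hm : (m:ℚ) + 1 ≠ 0 := by positivity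
  unfold cc
  apply mul_right_cancel₀ hm
  linear_combination (((m+1+k).choose k : ℚ) * ((2*k).choose k : ℚ) * ((m:ℚ)+1)) * h1 +
    ((m.choose k : ℚ) * ((m:ℚ)+1) * ((2*k).choose k : ℚ)) * h3

lemma cc_big (m : ℕ) : cc m (m+1) = 0 := by
  unfold cc
  rw [Nat.choose_eq_zero_of_lt (by omega)]
  simp

/-- `k! / (m + 3/2)_k` -/
def Ak (m k : ℕ) : ℚ := ∏ i ∈ range k, (((i:ℚ)+1) / ((m:ℚ) + 3/2 + i))
/-- `k! / (1/2 - m)_k` -/
def Bk (m k : ℕ) : ℚ := ∏ i ∈ range k, (((i:ℚ)+1) / (1/2 - (m:ℚ) + i))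
/-- `m! / (1/2)_(m+1)` -/
def Nm (m : ℕ) : ℚ := 2 * ∏ i ∈ range m, (((i:ℚ)+1) / ((i:ℚ) + 3/2))

lemma half_ne (m i : ℕ) : (1/2 - (m:ℚ) + i) ≠ 0 := by
  intro h
  have h1 : (2 * (m:ℚ)) = 2 * i + 1 := by linarith
  have h2 : 2 * m = 2 * i + 1 := by exact_mod_cast h1
  omega

lemma Ak_succ (m k : ℕ) : Ak m (k+1) * ((m:ℚ) + 3/2 + k) = Ak m k * ((k:ℚ)+1) := by
  have h1 : (m:ℚ) + 3/2 + k ≠ 0 := by positivity
  unfold Ak
  rw [prod_range_succ, mul_assoc, div_mul_cancel₀ _ h1]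

lemma Bk_succ (m k : ℕ) : Bk m (k+1) * (1/2 - (m:ℚ) + k) = Bk m k * ((k:ℚ)+1) := by
  have h1 := half_ne m k
  unfold Bk
  rw [prod_range_succ, mul_assoc, div_mul_cancel₀ _ h1]

lemma Ak_m (m k : ℕ) : Ak (m+1) k * ((m:ℚ) + 3/2 + k) = Ak m k * ((m:ℚ) + 3/2) := by
  induction k with
  | zero => simp [Ak]
  | succ k ih =>
    have h1 : (m:ℚ) + 3/2 + k ≠ 0 := by positivity
    have s1 := Ak_succ (m+1) k
    have s2 := Ak_succ m k
    push_cast at s1 ⊢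
    apply mul_right_cancel₀ h1
    linear_combination ((m:ℚ)+3/2+k) * s1 + ((k:ℚ)+1) * ih - ((m:ℚ)+3/2) * s2

lemma Bk_m (m k : ℕ) : Bk (m+1) k * ((m:ℚ) + 1/2) = Bk m k * ((m:ℚ) + 1/2 - k) := by
  induction k with
  | zero => simp [Bk]
  | succ k ih =>
    have h2 := half_ne (m+1) k
    have s1 := Bk_succ (m+1) k
    have s2 := Bk_succ m k
    push_cast at s1 h2 ⊢
    apply mul_right_cancel₀ h2
    linear_combination ((m:ℚ)+1/2) * s1 + ((k:ℚ)+1) * ih - ((m:ℚ)+1/2-k) * s2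

lemma Nm_succ (m : ℕ) : Nm (m+1) * ((m:ℚ) + 3/2) = Nm m * ((m:ℚ)+1) := by
  unfold Nm
  rw [prod_range_succ]
  have h1 : (m:ℚ) + 3/2 ≠ 0 := by positivity
  field_simp

/-- first WZ sum -/
def u (m k : ℕ) : ℚ := tau m k * Ak m k * Nm m

lemma u_k (m k : ℕ) : 4 * ((k:ℚ)+1)^2 * (2*m+3+2*k) * u m (k+1) =
    ((k:ℚ) - m) * ((k:ℚ)+m+1) * (2*k+1) * u m k := by
  have h := tau_succ m k
  have h1 : (m:ℚ) + 3/2 + k ≠ 0 := by positivity
  have h2 : (k:ℚ) + 1 ≠ 0 := by positivity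
  have hA := Ak_succ m k
  unfold u
  apply mul_right_cancel₀ h2
  linear_combination (8 * ((k:ℚ)+1)^3 * tau m (k+1) * Nm m) * hA + (Ak m k * ((k:ℚ)+1) * Nm m) * h

lemma u_m (m k : ℕ) (hk : k ≤ m) : u (m+1) k * (((m:ℚ)+1-k) * ((m:ℚ)+3/2+k)) =
    u m k * (((m:ℚ)+1+k) * ((m:ℚ)+1)) := by
  have h1 := cc_m m k hk
  have h2 := Ak_m m k
  have h3 := Nm_succ m
  have h4 : (m:ℚ) + 3/2 ≠ 0 := by positivity
  unfold u tau
  apply mul_right_cancel₀ h4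
  linear_combination ((-1/16:ℚ)^k * Ak (m+1) k * ((m:ℚ)+3/2+k) * Nm (m+1) * ((m:ℚ)+3/2)) * h1 +
    ((-1/16:ℚ)^k * (cc m k * ((m:ℚ)+1+k)) * Nm (m+1) * ((m:ℚ)+3/2)) * h2 +
    ((-1/16:ℚ)^k * (cc m k * ((m:ℚ)+1+k)) * (Ak m k * ((m:ℚ)+3/2))) * h3

lemma part1 (m k : ℕ) (hk : k ≤ m) :
    ∑ i ∈ range (k+1), ((3*(i:ℚ)+m+2) * u (m+1) i - (3*(i:ℚ)+m+1) * u m i) =
      u m k * ((k:ℚ)+m+1) * (2*k+1) / (2*m+3+2*k) := by
  induction k with
  | zero =>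
    have h := u_m m 0 (by omega)
    rw [sum_range_one]
    push_cast at h ⊢
    have h1 : (m:ℚ) + 1 ≠ 0 := by positivity
    have h2 : 2*(m:ℚ) + 3 ≠ 0 := by positivity
    rw [eq_div_iff (by positivity)]
    apply mul_right_cancel₀ h1
    linear_combination (2*((m:ℚ)+2)) * h
  | succ k ih =>
    rw [sum_range_succ, ih (by omega)]
    have hm : ((m:ℚ) - k) ≠ 0 := by
      have : (k:ℚ) + 1 ≤ m := by exact_mod_cast hk
      intro h0; linarith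
    have h1 := u_m m (k+1) hk
    have h2 := u_k m k
    have h3 : 2*(m:ℚ) + 3 + 2*k ≠ 0 := by positivity
    have h4 : (m:ℚ) + 3/2 + (k+1) ≠ 0 := by positivity
    have h5 : 2*(m:ℚ) + 3 + 2*(k+1) ≠ 0 := by positivity
    push_cast at h1 ⊢
    have e1 : u m k * ((k:ℚ)+m+1) * (2*k+1) = -(4 * ((k:ℚ)+1)^2 * (2*m+3+2*k) * u m (k+1)) / (m - k) := by
      rw [eq_div_iff hm]
      linear_combination h2
    have e2 : u (m+1) (k+1) = u m (k+1) * (((m:ℚ)+1+(k+1)) * ((m:ℚ)+1)) /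
        (((m:ℚ) - k) * ((m:ℚ)+3/2+(k+1))) := by
      rw [eq_div_iff (mul_ne_zero hm h4)]
      linear_combination h1
    rw [e1, e2]
    field_simp
    ring

lemma sum1 (m : ℕ) : ∑ k ∈ range (m+1), (3*(k:ℚ)+m+1) * u m k = 2 := by
  induction m with
  | zero => simp [u, tau_zero, Ak, Nm]
  | succ m ih =>
    rw [sum_range_succ]
    have h1 := part1 m m le_rfl
    rw [sum_sub_distrib, ih] at h1
    have h2 := u_k (m+1) m
    have h3 := u_m m m le_rfl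
    push_cast at h1 h2 ⊢
    have h4 : 2*(m:ℚ)+3+2*m ≠ 0 := by positivity
    have h5 : (m:ℚ)+1 ≠ 0 := by positivity
    have h6 : 4*(m:ℚ)+5 ≠ 0 := by positivity
    have e0 : ∑ x ∈ range (m+1), (3*(x:ℚ)+m+2) * u (m+1) x =
        ∑ x ∈ range (m+1), (3*(x:ℚ)+(m+1)+1) * u (m+1) x := sum_congr rfl fun i _ => by ring
    rw [e0] at h1
    -- the last term
    have e1 : (3*((m:ℚ)+1)+(m+1)+1) * u (m+1) (m+1) =
        -(u m m * ((m:ℚ)+m+1) * (2*m+1) / (2*m+3+2*m)) := by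
      rw [← neg_div, eq_div_iff h4]
      apply mul_right_cancel₀ (pow_ne_zero 2 h5)
      apply mul_right_cancel₀ h6
      linear_combination (4*(m:ℚ)+5) * (2*m+3+2*m) / 4 * h2 -
        (2*(m:ℚ)+1) * (4*(m:ℚ)+5) * (2*(m:ℚ)+2) / 2 * h3
    rw [e1]
    linarith

/-- second WZ sum -/
def w (m k : ℕ) : ℚ := tau m k * Bk m k

lemma w_k (m k : ℕ) : 4 * ((k:ℚ)+1)^2 * (1-2*m+2*k) * w m (k+1) =
    ((k:ℚ) - m) * ((k:ℚ)+m+1) * (2*k+1) * w m k := by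
  have h := tau_succ m k
  have h1 := half_ne m k
  have h2 : (k:ℚ) + 1 ≠ 0 := by positivity
  have hB := Bk_succ m k
  unfold w
  apply mul_right_cancel₀ h2
  linear_combination (8 * ((k:ℚ)+1)^3 * tau m (k+1)) * hB + (Bk m k * ((k:ℚ)+1)) * h

lemma w_m (m k : ℕ) (hk : k ≤ m) : w (m+1) k * (((m:ℚ)+1-k) * (2*(m:ℚ)+1)) =
    w m k * (((m:ℚ)+1+k) * (2*(m:ℚ)+1-2*k)) := by
  have h1 := cc_m m k hk
  have h2 := Bk_m m k
  unfold w tau
  linear_combination (2 * (-1/16:ℚ)^k * Bk (m+1) k * ((m:ℚ)+1/2)) * h1 +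
    (2 * (-1/16:ℚ)^k * (cc m k * ((m:ℚ)+1+k))) * h2

lemma part2 (m k : ℕ) (hk : k ≤ m) :
    ∑ i ∈ range (k+1), (2*((m:ℚ)+1)/(2*(m:ℚ)+1) * ((3*(i:ℚ)-m) * w m i) -
      (3*(i:ℚ)-m-1) * w (m+1) i) =
      w (m+1) k * ((m:ℚ)+1-k) * (2*k+1) / (2*m+1-2*k) := by
  have hh : 2*(m:ℚ) + 1 ≠ 0 := by positivity
  induction k with
  | zero =>
    have h := w_m m 0 (by omega)
    rw [sum_range_one]
    push_cast at h ⊢
    have h1 : (m:ℚ) + 1 ≠ 0 := by positivity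
    have e : w m 0 = w (m+1) 0 := by
      apply mul_right_cancel₀ (mul_ne_zero h1 hh)
      linear_combination -h
    rw [e, show 2*(m:ℚ) + 1 - 2*0 = 2*m+1 by ring, eq_div_iff hh]
    generalize w (m+1) 0 = x
    field_simp
    ring
  | succ k ih =>
    rw [sum_range_succ, ih (by omega)]
    have hkm : (k:ℚ) + 1 ≤ m := by exact_mod_cast hk
    have h1 := w_m m (k+1) hk
    have h2 := w_k (m+1) k
    have h3 : 2*(m:ℚ) + 1 - 2*k ≠ 0 := by intro h0; linarith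
    have h4 : 2*(m:ℚ) - 1 - 2*k ≠ 0 := by intro h0; linarith
    have h6 : (k:ℚ)+m+2 ≠ 0 := by positivity
    push_cast at h1 h2 ⊢
    have e1 : w (m+1) k * ((m:ℚ)+1-k) * (2*k+1) / (2*m+1-2*k) =
        4 * ((k:ℚ)+1)^2 * w (m+1) (k+1) / (k+m+2) := by
      rw [div_eq_div_iff h3 h6]
      linear_combination h2
    have e2 : w m (k+1) = w (m+1) (k+1) * (((m:ℚ)-k) * (2*m+1)) /
        (((k:ℚ)+m+2) * (2*m-1-2*k)) := by
      rw [eq_div_iff (mul_ne_zero h6 h4)]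
      linear_combination -h1
    rw [e1, e2, show 2*(m:ℚ)+1-2*(k+1) = 2*m-1-2*k by ring]
    generalize w (m+1) (k+1) = x
    obtain ⟨D, hD⟩ : ∃ D : ℚ, 2*(m:ℚ)-1-2*k = D := ⟨_, rfl⟩
    rw [hD] at h4 ⊢
    rw [eq_div_iff h4]
    field_simp
    rw [← hD]
    ring

lemma sum2 (m : ℕ) : ∑ k ∈ range (m+1), (3*(k:ℚ)-m) * w m k = 0 := by
  induction m with
  | zero => simp
  | succ m ih =>
    rw [sum_range_succ]
    have h1 := part2 m m le_rfl
    rw [sum_sub_distrib, ← mul_sum, ih, mul_zero, zero_sub] at h1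
    have h2 := w_k (m+1) m
    push_cast at h1 h2 ⊢
    have h5 : (m:ℚ)+1 ≠ 0 := by positivity
    have e0 : ∑ x ∈ range (m+1), (3*(x:ℚ)-m-1) * w (m+1) x =
        ∑ x ∈ range (m+1), (3*(x:ℚ)-(m+1)) * w (m+1) x := sum_congr rfl fun i _ => by ring
    rw [e0] at h1
    have e1 : (3*((m:ℚ)+1)-(m+1)) * w (m+1) (m+1) = w (m+1) m * (2*m+1) := by
      apply mul_right_cancel₀ (pow_ne_zero 2 h5)
      linear_combination -((m:ℚ)+1)/2 * h2
    rw [e1]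
    have e2 : w (m+1) m * ((m:ℚ)+1-m) * (2*m+1) / (2*m+1-2*m) = w (m+1) m * (2*m+1) := by
      rw [show 2*(m:ℚ)+1-2*m = 1 by ring, div_one]
      ring
    rw [e2] at h1
    linarith

variable {p : ℕ} [hp : Fact p.Prime]

lemma inv_mem (m : ℕ) (hm : 2*m+1 = p) (i : ℕ) (hi : i < m) : (((i:ℚ)+1))⁻¹ ∈ Zp p := by
  have h2 : ¬ p ∣ (i+1) := fun h => absurd (Nat.le_of_dvd (by omega) h) (by omega)
  have := inv_nat_mem (p := p) h2
  push_cast at this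
  exact this

/-- the products modulo `p ^ 2` -/
lemma prod_inv (a : ℕ → ℚ) (k : ℕ) (ha : ∀ i < k, I p 1 (a i)) :
    I p 2 (∏ i ∈ range k, (1 + a i)⁻¹ - (1 - ∑ i ∈ range k, a i)) := by
  have h1 := prod_one_sub (p := p) (m := 1) (fun i => - a i) k (fun i hi => (ha i hi).neg)
  simp only [sub_neg_eq_add, sum_neg_distrib] at h1
  have hs : I p 1 (∑ i ∈ range k, a i) := I.sum _ _ (fun i hi => ha i (mem_range.mp hi))
  have h2 := prod_one (p := p) (k := 1) (fun i => 1 + a i) k (fun i hi => by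
    have := ha i hi
    rwa [add_sub_cancel_left])
  obtain ⟨h3, h4, _⟩ := unit h2
  rw [prod_inv_distrib]
  obtain ⟨Q, hQ⟩ : ∃ Q : ℚ, Q = ∏ i ∈ range k, (1 + a i) := ⟨_, rfl⟩
  obtain ⟨S, hS⟩ : ∃ S : ℚ, S = ∑ i ∈ range k, a i := ⟨_, rfl⟩
  rw [← hQ] at h1 h3 h4 ⊢
  rw [← hS] at h1 hs ⊢
  have e : Q⁻¹ - (1 - S) = ((S * S) - (1 - S) * (Q - (1 + S))) * Q⁻¹ := by
    field_simp
    ring
  rw [e]
  have h5 : I p 2 (S * S) := hs.mul hs
  have h6 : I p 2 (Q - (1 + S)) := h1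
  have h7 : (1 - S) ∈ Zp p := (Zp p).sub_mem (Zp p).one_mem hs.mem
  exact (h5.sub (I.mem_mul h7 h6)).mul_mem h4

lemma half_mem (hp2 : p ≠ 2) : (1/2 : ℚ) ∈ Zp p := by
  have h2 : ¬ p ∣ 2 := fun h => hp2 ((Nat.prime_dvd_prime_iff_eq hp.out Nat.prime_two).mp h)
  have := inv_nat_mem (p := p) h2
  push_cast at this
  rwa [one_div]

lemma tau_mem (hp2 : p ≠ 2) (m k : ℕ) : tau m k ∈ Zp p := by
  unfold tau cc
  refine (Zp p).mul_mem ((Zp p).mul_mem ((Zp p).mul_mem (nat_mem _) (nat_mem _)) (nat_mem _))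
    ((Zp p).pow_mem ?_ k)
  have : (-1/16 : ℚ) = -((1/2)^4) := by norm_num
  rw [this]
  exact (Zp p).neg_mem ((Zp p).pow_mem (half_mem hp2) 4)

end LIN

open LIN in
theorem t_LIN : S_LIN := by
  intro p hp m hm h2 hodd
  have hp2 : p ≠ 2 := by omega
  have hpq : (p:ℚ) = 2*m+1 := by rw [← hm]; push_cast; ring
  let a : ℕ → ℚ := fun i => (p:ℚ)/2 * ((i:ℚ)+1)⁻¹
  have ha : ∀ i < m, I p 1 (a i) := by
    intro i hi
    refine ⟨1/2 * ((i:ℚ)+1)⁻¹, (Zp p).mul_mem (half_mem hp2) (inv_mem m hm i hi), ?_⟩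
    simp only [a]
    ring
  have hA : ∀ k ≤ m, I p 2 (Ak m k - (1 - ∑ i ∈ range k, a i)) := by
    intro k hk
    have h := prod_inv (p := p) a k (fun i hi => ha i (by omega))
    have e : Ak m k = ∏ i ∈ range k, (1 + a i)⁻¹ := by
      unfold Ak
      refine prod_congr rfl fun i _ => ?_
      have h1 : (i:ℚ) + 1 ≠ 0 := by positivity
      have h3 : (m:ℚ) + 3/2 + i ≠ 0 := by positivity
      have h4 : 1 + a i = ((m:ℚ) + 3/2 + i) / ((i:ℚ)+1) := by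
        simp only [a]
        rw [hpq]
        field_simp
        ring
      rw [h4, inv_div]
    rw [e]
    exact h
  have hB : ∀ k ≤ m, I p 2 (Bk m k - (1 + ∑ i ∈ range k, a i)) := by
    intro k hk
    have h := prod_inv (p := p) (fun i => - a i) k (fun i hi => (ha i (by omega)).neg)
    have e : Bk m k = ∏ i ∈ range k, (1 + - a i)⁻¹ := by
      unfold Bk
      refine prod_congr rfl fun i _ => ?_
      have h1 : (i:ℚ) + 1 ≠ 0 := by positivity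
      have h4 : 1 + - a i = (1/2 - (m:ℚ) + i) / ((i:ℚ)+1) := by
        simp only [a]
        rw [hpq]
        field_simp
        ring
      rw [h4, inv_div]
    rw [e]
    simp only [sum_neg_distrib, sub_neg_eq_add] at h
    exact h
  -- the combination of the two sums
  have hN0 : Nm m ≠ 0 := by
    unfold Nm
    refine mul_ne_zero two_ne_zero (prod_ne_zero_iff.mpr fun i _ => ?_)
    positivity
  have s1 : ∑ k ∈ range (m+1), (3*(k:ℚ)+m+1) * (tau m k * Ak m k) = 2 / Nm m := by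
    rw [eq_div_iff hN0, sum_mul, ← sum1 m]
    refine sum_congr rfl fun k _ => ?_
    unfold u
    ring
  have s2 : ∑ k ∈ range (m+1), (3*(k:ℚ)-m) * (tau m k * Bk m k) = 0 := sum2 m
  have s3 : 6 * Dm m + Tm m = ∑ k ∈ range (m+1), (6*(k:ℚ)+1) * tau m k := by
    unfold Dm Tm
    rw [mul_sum, ← sum_add_distrib]
    refine sum_congr rfl fun k _ => ?_
    unfold tau
    ring
  have s4 : I p 2 (∑ k ∈ range (m+1), (6*(k:ℚ)+1) * tau m k - 2 / Nm m) := by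
    have e : ∑ k ∈ range (m+1), (6*(k:ℚ)+1) * tau m k - 2 / Nm m =
        ∑ k ∈ range (m+1), tau m k * ((p:ℚ)^2 * (1/2 * ∑ i ∈ range k, ((i:ℚ)+1)⁻¹)
          - (3*(k:ℚ)+m+1) * (Ak m k - (1 - ∑ i ∈ range k, a i))
          - (3*(k:ℚ)-m) * (Bk m k - (1 + ∑ i ∈ range k, a i))) := by
      have s12 : 2 / Nm m = ∑ k ∈ range (m+1), ((3*(k:ℚ)+m+1) * (tau m k * Ak m k) +
          (3*(k:ℚ)-m) * (tau m k * Bk m k)) := by
        rw [sum_add_distrib, s1, s2, add_zero]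
      rw [s12, ← sum_sub_distrib]
      refine sum_congr rfl fun k _ => ?_
      have e1 : ∑ i ∈ range k, a i = (p:ℚ)/2 * ∑ i ∈ range k, ((i:ℚ)+1)⁻¹ := by
        rw [mul_sum]
      rw [e1, hpq]
      ring
    rw [e]
    refine I.sum _ _ fun k hk => ?_
    have hk' : k ≤ m := by have := mem_range.mp hk; omega
    refine I.mem_mul (tau_mem hp2 m k) ?_
    have c1 : (3*(k:ℚ)+m+1) ∈ Zp p := by
      have := nat_mem (p := p) (3*k+m+1)
      push_cast at this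
      exact this
    have c2 : (3*(k:ℚ)-m) ∈ Zp p := by
      have := (Zp p).sub_mem (nat_mem (p := p) (3*k)) (nat_mem (p := p) m)
      push_cast at this
      exact this
    have c3 : I p 2 ((p:ℚ)^2 * (1/2 * ∑ i ∈ range k, ((i:ℚ)+1)⁻¹)) := by
      refine ⟨_, (Zp p).mul_mem (half_mem hp2) ((Zp p).sum_mem fun i hi => ?_), rfl⟩
      exact inv_mem m hm i (by have := mem_range.mp hi; omega)
    exact (c3.sub (I.mem_mul c1 (hA k hk'))).sub (I.mem_mul c2 (hB k hk'))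
  -- the value of `2 / Nm m`
  have s5 : I p 2 (2 / Nm m + p) := by
    have hm1 : 1 ≤ m := by omega
    have e : 2 / Nm m = (p:ℚ) * ∏ i ∈ range m, (((i:ℚ)+1/2) * ((i:ℚ)+1)⁻¹) := by
      have t1 : (∏ i ∈ range m, ((i:ℚ) + 3/2)) * (1/2) = (∏ i ∈ range m, ((i:ℚ)+1/2)) * ((m:ℚ)+1/2) := by
        have := prod_range_succ (fun i : ℕ => ((i:ℚ)+1/2)) m
        rw [← this, prod_range_succ']
        congr 1
        · refine prod_congr rfl fun i _ => ?_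
          push_cast
          ring
        · norm_num
      have t2 : (∏ i ∈ range m, ((i:ℚ) + 1)) ≠ 0 := prod_ne_zero_iff.mpr fun i _ => by positivity
      have t3 : (∏ i ∈ range m, ((i:ℚ) + 3/2)) ≠ 0 := prod_ne_zero_iff.mpr fun i _ => by positivity
      have fin : ∀ P1 P2 P3 : ℚ, P2 ≠ 0 → P3 ≠ 0 → P3 * (1/2) = P1 * ((m:ℚ)+1/2) →
          2 / (2 * (P2 / P3)) = (2*(m:ℚ)+1) * (P1 * P2⁻¹) := by
        intro P1 P2 P3 q2 q3 q1
        field_simp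
        linarith
      unfold Nm
      rw [prod_div_distrib, prod_mul_distrib, prod_inv_distrib, hpq]
      exact fin _ _ _ t2 t3 t1
    rw [e]
    have h3 : I p 1 (∏ i ∈ range m, (((i:ℚ)+1/2) * ((i:ℚ)+1)⁻¹) -
        ∏ i ∈ range m, (((i:ℚ)-m) * ((i:ℚ)+1)⁻¹)) ∧ True := by
      refine ⟨?_, trivial⟩
      have hgen : ∀ n ≤ m, I p 1 (∏ i ∈ range n, (((i:ℚ)+1/2) * ((i:ℚ)+1)⁻¹) -
          ∏ i ∈ range n, (((i:ℚ)-m) * ((i:ℚ)+1)⁻¹)) ∧
          (∏ i ∈ range n, (((i:ℚ)-m) * ((i:ℚ)+1)⁻¹)) ∈ Zp p := by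
        intro n
        induction n with
        | zero =>
          intro _
          rw [prod_range_zero, prod_range_zero, sub_self]
          exact ⟨I.zero 1, (Zp p).one_mem⟩
        | succ n ih =>
          intro hn
          obtain ⟨i1, i2⟩ := ih (by omega)
          have hv := inv_mem m hm n (by omega)
          have hx : ((n:ℚ)+1/2) * ((n:ℚ)+1)⁻¹ ∈ Zp p :=
            (Zp p).mul_mem ((Zp p).add_mem (nat_mem n) (half_mem hp2)) hv
          have hy : ((n:ℚ)-m) * ((n:ℚ)+1)⁻¹ ∈ Zp p :=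
            (Zp p).mul_mem ((Zp p).sub_mem (nat_mem n) (nat_mem m)) hv
          have hd : I p 1 (((n:ℚ)+1/2) * ((n:ℚ)+1)⁻¹ - ((n:ℚ)-m) * ((n:ℚ)+1)⁻¹) := by
            refine ⟨1/2 * ((n:ℚ)+1)⁻¹, (Zp p).mul_mem (half_mem hp2) hv, ?_⟩
            rw [hpq]
            ring
          rw [prod_range_succ, prod_range_succ]
          refine ⟨?_, (Zp p).mul_mem i2 hy⟩
          have e4 : (∏ i ∈ range n, (((i:ℚ)+1/2) * ((i:ℚ)+1)⁻¹)) * (((n:ℚ)+1/2) * ((n:ℚ)+1)⁻¹) -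
              (∏ i ∈ range n, (((i:ℚ)-m) * ((i:ℚ)+1)⁻¹)) * (((n:ℚ)-m) * ((n:ℚ)+1)⁻¹) =
              (∏ i ∈ range n, (((i:ℚ)+1/2) * ((i:ℚ)+1)⁻¹) -
                ∏ i ∈ range n, (((i:ℚ)-m) * ((i:ℚ)+1)⁻¹)) * (((n:ℚ)+1/2) * ((n:ℚ)+1)⁻¹) +
              (∏ i ∈ range n, (((i:ℚ)-m) * ((i:ℚ)+1)⁻¹)) *
                (((n:ℚ)+1/2) * ((n:ℚ)+1)⁻¹ - ((n:ℚ)-m) * ((n:ℚ)+1)⁻¹) := by ring
          rw [e4]
          exact (i1.mul_mem hx).add (I.mem_mul i2 hd)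
      exact (hgen m le_rfl).1
    have h4 : ∏ i ∈ range m, (((i:ℚ)-m) * ((i:ℚ)+1)⁻¹) = -1 := by
      have t1 : ∏ i ∈ range m, ((i:ℚ)-m) = (-1)^m * ∏ i ∈ range m, ((i:ℚ)+1) := by
        have t2 : ∏ i ∈ range m, ((i:ℚ)+1) = ∏ i ∈ range m, ((m:ℚ) - i) := by
          rw [← prod_range_reflect]
          refine prod_congr rfl fun i hi => ?_
          have hi' := mem_range.mp hi
          rw [Nat.sub_sub, Nat.cast_sub (by omega)]
          push_cast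
          ring
        rw [t2]
        have t3 : ((-1:ℚ))^m = ∏ _i ∈ range m, (-1:ℚ) := by rw [prod_const, card_range]
        rw [t3, ← prod_mul_distrib]
        refine prod_congr rfl fun i _ => ?_
        ring
      rw [prod_mul_distrib, t1, prod_inv_distrib, mul_assoc, mul_inv_cancel₀, mul_one]
      · exact (Nat.odd_iff.mpr hodd).neg_one_pow
      · rw [prod_ne_zero_iff]
        intro i _
        positivity
    rw [h4] at h3
    have e5 : (p:ℚ) * ∏ i ∈ range m, (((i:ℚ)+1/2) * ((i:ℚ)+1)⁻¹) + p =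
        (p:ℚ)^1 * (∏ i ∈ range m, (((i:ℚ)+1/2) * ((i:ℚ)+1)⁻¹) - -1) := by ring
    rw [e5]
    exact (I.p_pow 1).mul h3.1
  have e6 : 6 * Dm m + Tm m + p = (∑ k ∈ range (m+1), (6*(k:ℚ)+1) * tau m k - 2 / Nm m) +
      (2 / Nm m + p) := by rw [s3]; ring
  rw [e6]
  exact s4.add s5

end Pool.Agent.R439.LW
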