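import Pool.Agent.R439.LW.Stm

set_option autoImplicit false

namespace Pool.Agent.R439.LW

open Finset Polynomial Pool.Agent.R856.CM

namespace POLY

lemma gg_succ (l k : ℕ) :
    ((k:ℚ)+1)^2 * gg l (k+1) = ((k:ℚ)-l)*((l:ℚ)+3/2+k) * gg l k := by
  unfold gg
  rw [prod_range_succ]
  generalize (∏ i ∈ range k, (((i:ℚ) - l) * ((l:ℚ) + 3/2 + i) / ((i:ℚ)+1)^2)) = P
  have : ((k:ℚ)+1)^2 ≠ 0 := by positivity
  field_simp

lemma gg_zero_of (l k : ℕ) (h : l < k) : gg l k = 0 := by
  unfold gg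
  apply Finset.prod_eq_zero (mem_range.2 h)
  simp

noncomputable def Gp (l : ℕ) : ℚ[X] := ∑ k ∈ range (l+1), C (gg l k) * X^k

lemma Gp_coeff (l k : ℕ) : (Gp l).coeff k = gg l k := by
  unfold Gp
  rw [finsetSum_coeff]
  simp only [coeff_C_mul_X_pow]
  rw [Finset.sum_ite_eq]
  split_ifs with h
  · rfl
  · rw [mem_range] at h
    rw [gg_zero_of l k (by omega)]

lemma Gp_ode (l : ℕ) : C 2 * th (th (Gp l)) - C 2 * (X * th (th (Gp l))) - C 3 * (X * th (Gp l))
    + C ((l:ℚ)*(2*l+3)) * (X * Gp l) = 0 := by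
  ext k
  rw [coeff_add, coeff_sub, coeff_sub, coeff_C_mul, coeff_C_mul, coeff_C_mul, coeff_C_mul, coeff_zero]
  cases k with
  | zero => simp [th_coeff]
  | succ k =>
    rw [coeff_X_mul, coeff_X_mul, coeff_X_mul, th_coeff, th_coeff, th_coeff, th_coeff, Gp_coeff,
      Gp_coeff]
    have := gg_succ l k
    push_cast
    linear_combination 2 * this

lemma three_C : (3:ℚ[X]) = C 3 := (map_ofNat (C : ℚ →+* ℚ[X]) 3).symm

lemma Gp_ode' (l : ℕ) : 2 * (derivative (Gp l) + X * derivative (derivative (Gp l)))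
    - 2 * X * (derivative (Gp l) + X * derivative (derivative (Gp l)))
    - 3 * X * derivative (Gp l) + C ((l:ℚ)*(2*l+3)) * Gp l = 0 := by
  have h := Gp_ode l
  rw [← two_C, ← three_C] at h
  have e1 : th (th (Gp l)) = X * (derivative (Gp l) + X * derivative (derivative (Gp l))) := by
    unfold th
    rw [derivative_mul, derivative_X]; ring
  rw [e1] at h
  unfold th at h
  apply mul_left_cancel₀ (X_ne_zero (R := ℚ))
  rw [mul_zero]
  linear_combination h

lemma uniq (N : ℚ) (d : ℚ[X]) (h : th ((1+X) * th d) = C N * (X * d)) (h0 : d.coeff 0 = 0) :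
    d = 0 := by
  have key : ∀ k, d.coeff k = 0 := by
    intro k
    induction k with
    | zero => exact h0
    | succ k ih =>
      have h1 : (th ((1+X) * th d)).coeff (k+1) = (C N * (X * d)).coeff (k+1) := by rw [h]
      rw [th_coeff, coeff_E, coeff_C_mul, coeff_X_mul, th_coeff, th_coeff, ih] at h1
      push_cast at h1
      have h2 : ((k:ℚ)+1)^2 * d.coeff (k+1) = 0 := by linear_combination h1
      have h3 : ((k:ℚ)+1)^2 ≠ 0 := by positivity
      exact (mul_eq_zero.mp h2).resolve_left h3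
  ext k
  rw [key k, coeff_zero]

end POLY

open POLY in
theorem t_POLY : S_POLY := by
  intro l
  have hG : (∑ k ∈ range (l+1), C (gg l k) * X^k : ℚ[X]) = Gp l := rfl
  rw [hG]
  have h4 : (C (-4) : ℚ[X]) = -4 := by
    rw [C_neg, ← four_C]
  set q : ℚ[X] := C (-4) * (X + X^2) with hq
  have hq' : q = -4 * (X + X^2) := by rw [hq, h4]
  have hdq : derivative q = -4 * (1 + 2*X) := by
    rw [hq, derivative_mul, derivative_C, derivative_add, derivative_X, derivative_X_pow]
    rw [h4]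
    push_cast
    simp only [Nat.add_one_sub_one, pow_one, zero_mul, zero_add]
    rw [← two_C]
  set g0 := (Gp l).comp q with hg0
  set g1 := (derivative (Gp l)).comp q with hg1
  set g2 := (derivative (derivative (Gp l))).comp q with hg2
  have d0 : derivative g0 = -4 * (1+2*X) * g1 := by
    rw [hg0, derivative_comp, hdq]
  have d1 : derivative g1 = -4 * (1+2*X) * g2 := by
    rw [hg1, derivative_comp, hdq]
  have ode : 2 * (g1 + q * g2) - 2 * q * (g1 + q * g2) - 3 * q * g1 +
      C ((l:ℚ)*(2*l+3)) * g0 = 0 := by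
    have h := congrArg (fun P => P.comp q) (Gp_ode' l)
    simp only [add_comp, sub_comp, mul_comp, X_comp, C_comp, ofNat_comp, zero_comp] at h
    exact h
  have dW : derivative (1 + 2*X : ℚ[X]) = 2 := by
    rw [derivative_add, derivative_one, derivative_mul, derivative_X, two_C, derivative_C]
    ring
  have d2 : derivative (2 : ℚ[X]) = 0 := by rw [two_C, derivative_C]
  have d4 : derivative (-4 : ℚ[X]) = 0 := by rw [← h4, derivative_C]
  have dh : derivative ((1+2*X) * g0) = 2 * g0 - 4 * (1+2*X)^2 * g1 := by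
    rw [derivative_mul, dW, d0]; ring
  have dh2 : derivative (2 * g0 - 4 * (1+2*X)^2 * g1) =
      -24 * (1+2*X) * g1 + 16 * (1+2*X)^3 * g2 := by
    have e : (2 * g0 - 4 * (1+2*X)^2 * g1 : ℚ[X]) = 2 * g0 + (-4) * ((1+2*X) * ((1+2*X) * g1)) := by
      ring
    rw [e, derivative_add, derivative_mul, derivative_mul (f := (-4 : ℚ[X])), derivative_mul (f := (1 + 2*X : ℚ[X])),
      derivative_mul (f := (1 + 2*X : ℚ[X])), dW, d2, d4, d0, d1]
    ring
  have hth : th ((1+X) * th ((1+2*X) * g0)) =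
      C ((2*l+1 : ℕ) * ((2*l+1 : ℕ) + 1) : ℚ) * (X * ((1+2*X) * g0)) := by
    have e1 : th ((1+2*X) * g0) = X * (2 * g0 - 4 * (1+2*X)^2 * g1) := by
      unfold th; rw [dh]
    rw [e1]
    unfold th
    have e2 : derivative ((1+X) * (X * (2 * g0 - 4 * (1+2*X)^2 * g1))) =
        (1 + 2*X) * (2 * g0 - 4 * (1+2*X)^2 * g1) +
          (X + X^2) * (-24 * (1+2*X) * g1 + 16 * (1+2*X)^3 * g2) := by
      rw [derivative_mul, derivative_mul, dh2, derivative_add, derivative_one, derivative_X]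
      ring
    rw [e2]
    have hN : (C ((2*l+1 : ℕ) * ((2*l+1 : ℕ) + 1) : ℚ) : ℚ[X]) = 2 * C ((l:ℚ)*(2*l+3)) + 2 := by
      rw [two_C, ← C_mul, ← C_add]
      congr 1
      push_cast; ring
    rw [hN]
    rw [hq'] at ode
    linear_combination (-2) * X * (1+2*X) * ode
  have hd : ff (2*l+1) - (1+2*X) * g0 = 0 := by
    apply uniq (((2*l+1 : ℕ) : ℚ) * ((2*l+1 : ℕ) + 1))
    · have h1 := ff_ode (2*l+1)
      rw [th_sub, mul_sub, th_sub, h1, hth]
      ring
    · have e0 : g0.coeff 0 = 1 := by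
        have : eval 0 q = 0 := by rw [hq]; simp
        rw [coeff_zero_eq_eval_zero, hg0, eval_comp, this, ← coeff_zero_eq_eval_zero, Gp_coeff]
        simp [gg]
      rw [coeff_sub, ff_coeff, mul_coeff_zero, e0]
      simp [aa]
  exact sub_eq_zero.mp hd

end Pool.Agent.R439.LW
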