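import Pool.Agent.R439.LW.Stm

/-! Project LW (helper439, MP_d57286_nt), piece SQ by helper744. -/

set_option autoImplicit false

namespace Pool.Agent.R439.LW

open Finset Polynomial Pool.Agent.Helper857.Pad Pool.Agent.R856.CM

namespace SqAux

lemma aeval_sumr (a : ℕ → ℚ) (n : ℕ) (t : ℝ) :
    aeval t (∑ k ∈ range n, C (a k) * X ^ k : ℚ[X]) = ∑ k ∈ range n, (a k : ℝ) * t ^ k := by
  rw [map_sum]
  refine sum_congr rfl fun k _ => ?_
  rw [map_mul, map_pow, aeval_C, aeval_X]
  rfl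

lemma aeval_der (a : ℕ → ℚ) (n : ℕ) (t : ℝ) :
    t * aeval t (derivative (∑ k ∈ range n, C (a k) * X ^ k : ℚ[X])) =
      ∑ k ∈ range n, (k : ℝ) * ((a k : ℝ) * t ^ k) := by
  rw [derivative_sum, map_sum, mul_sum]
  refine sum_congr rfl fun k _ => ?_
  rw [derivative_C_mul_X_pow, map_mul, map_pow, aeval_C, aeval_X]
  cases k with
  | zero => simp
  | succ k =>
    rw [Nat.add_sub_cancel, pow_succ]
    simp only [eq_ratCast]
    push_cast
    ring

lemma uL_eq (r : ℝ) (hr : r ^ 2 = 3) : ∀ k : ℕ, (uL k : ℝ) * (2 * r) = (2 + r) ^ k - (2 - r) ^ k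
  | 0 => by simp [uL]
  | 1 => by simp [uL]; ring
  | k + 2 => by
    have h1 := uL_eq r hr k
    have h2 := uL_eq r hr (k + 1)
    rw [uL]
    push_cast
    have e1 : (2 + r) ^ (k + 2) = 4 * (2 + r) ^ (k + 1) - (2 + r) ^ k := by
      rw [pow_succ (2 + r) (k + 1), pow_succ (2 + r) k]
      linear_combination (2 + r) ^ k * hr
    have e2 : (2 - r) ^ (k + 2) = 4 * (2 - r) ^ (k + 1) - (2 - r) ^ k := by
      rw [pow_succ (2 - r) (k + 1), pow_succ (2 - r) k]
      linear_combination (2 - r) ^ k * hr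
    rw [e1, e2]
    linear_combination 4 * h2 - h1

end SqAux

open SqAux

theorem t_SQ (h : S_POLY) : S_SQ := by
  intro m hm
  obtain ⟨l, rfl⟩ : ∃ l, m = 2 * l + 1 := ⟨m / 2, by omega⟩
  obtain ⟨r, hr⟩ : ∃ r : ℝ, r ^ 2 = 3 := ⟨√3, Real.sq_sqrt (by norm_num)⟩
  have hr0 : r ≠ 0 := by
    rintro rfl
    norm_num at hr
  set n := 2 * l + 1 with hn
  set G : ℚ[X] := ∑ k ∈ range (l + 1), C (gg l k) * X ^ k with hG
  have hff : ff n = (1 + 2 * X) * G.comp (C (-4) * (X + X ^ 2)) := h l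
  set g : ℝ := aeval (1 / 4 : ℝ) G with hg
  set g1 : ℝ := aeval (1 / 4 : ℝ) (derivative G) with hg1
  set gd : ℝ := aeval (-1 / 16 : ℝ) (derivative (GG n)) with hgd
  -- values at a root of `t + t ^ 2 = - 1 / 16`
  have key : ∀ t : ℝ, t + t ^ 2 = -1 / 16 → aeval t (ff n) = (1 + 2 * t) * g ∧
      aeval t (derivative (ff n)) = 2 * g - 4 * (1 + 2 * t) ^ 2 * g1 ∧
      (aeval t (ff n)) ^ 2 = (Tm n : ℝ) ∧
      2 * aeval t (ff n) * aeval t (derivative (ff n)) = (1 + 2 * t) * gd := by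
    intro t ht
    have hq : aeval t (C (-4) * (X + X ^ 2) : ℚ[X]) = (1 / 4 : ℝ) := by
      rw [map_mul, map_add, map_pow, aeval_C, aeval_X, ht]
      simp
      norm_num
    have hx : aeval t (X + X ^ 2 : ℚ[X]) = (-1 / 16 : ℝ) := by
      rw [map_add, map_pow, aeval_X, ht]
    have two : aeval t (2 : ℚ[X]) = (2 : ℝ) := map_ofNat _ 2
    have h12 : aeval t (1 + 2 * X : ℚ[X]) = 1 + 2 * t := by
      rw [map_add, map_mul, map_one, two, aeval_X]
    refine ⟨?_, ?_, ?_, ?_⟩
    · rw [hff, map_mul, aeval_comp, hq, h12]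
    · rw [hff, derivative_mul, derivative_comp, map_add, map_mul, map_mul, map_mul, aeval_comp, aeval_comp, hq, h12]
      have d1 : aeval t (derivative (1 + 2 * X : ℚ[X])) = (2 : ℝ) := by
        rw [two_C]
        simp
      have d2 : aeval t (derivative (C (-4) * (X + X ^ 2) : ℚ[X])) = -4 * (1 + 2 * t) := by
        rw [derivative_C_mul, derivative_add, derivative_X, derivative_X_pow]
        simp
      rw [d1, d2]
      ring
    · rw [← map_pow, square, aeval_comp, hx, GG, aeval_sumr]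
      unfold Tm
      push_cast
      rfl
    · have hd : derivative (ff n ^ 2) = derivative ((GG n).comp (X + X ^ 2)) := by rw [square]
      rw [derivative_comp, pow_two, derivative_mul] at hd
      have := congrArg (aeval t) hd
      rw [map_add, map_mul, map_mul, map_mul, aeval_comp, hx] at this
      simp only [derivative_add, derivative_X, derivative_X_pow, Nat.cast_ofNat, map_add, map_mul, map_one,
        map_pow, aeval_X] at this
      simp at this
      linear_combination this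
  have ht1 : (-(2 + r) / 4) + (-(2 + r) / 4) ^ 2 = -1 / 16 := by linear_combination hr / 16
  have ht2 : (-(2 - r) / 4) + (-(2 - r) / 4) ^ 2 = -1 / 16 := by linear_combination hr / 16
  obtain ⟨a1, a2, a3, a4⟩ := key _ ht1
  obtain ⟨b1, b2, -, -⟩ := key _ ht2
  have hD : (Dm n : ℝ) = -1 / 16 * gd := by
    rw [hgd, GG, aeval_der]
    unfold Dm
    push_cast
    rfl
  have hpow : ∀ (x : ℝ) (k : ℕ), (-x / 4) ^ k = x ^ k * (-1 / 4) ^ k := fun x k => by
    rw [← mul_pow]; congr 1; ring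
  have hW : (Wm n : ℝ) * (2 * r) = aeval (-(2 + r) / 4) (ff n) - aeval (-(2 - r) / 4) (ff n) := by
    rw [ff, aeval_sumr, aeval_sumr, ← sum_sub_distrib]
    unfold Wm
    push_cast
    rw [sum_mul]
    refine sum_congr rfl fun k _ => ?_
    rw [hpow (2 + r), hpow (2 - r)]
    linear_combination (-1 / 4 : ℝ) ^ k * (aa n k : ℝ) * uL_eq r hr k
  have hV : (Vm n : ℝ) * (2 * r) = (-(2 + r) / 4) * aeval (-(2 + r) / 4) (derivative (ff n)) -
      (-(2 - r) / 4) * aeval (-(2 - r) / 4) (derivative (ff n)) := by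
    rw [ff, aeval_der, aeval_der, ← sum_sub_distrib]
    unfold Vm
    push_cast
    rw [sum_mul]
    refine sum_congr rfl fun k _ => ?_
    rw [hpow (2 + r), hpow (2 - r)]
    linear_combination (k : ℝ) * (-1 / 4 : ℝ) ^ k * (aa n k : ℝ) * uL_eq r hr k
  have hWg : (Wm n : ℝ) = -g / 2 := by
    have : (Wm n : ℝ) * (2 * r) = (-g / 2) * (2 * r) := by
      rw [hW, a1, b1]; ring
    exact mul_right_cancel₀ (by positivity) this
  have hVg : (Vm n : ℝ) = -(2 * g - 3 * g1) / 4 := by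
    have : (Vm n : ℝ) * (2 * r) = (-(2 * g - 3 * g1) / 4) * (2 * r) := by
      rw [hV, a2, b2]
      linear_combination (r / 2 * g1) * hr
    exact mul_right_cancel₀ (by positivity) this
  have hT : (Tm n : ℝ) = 3 / 4 * g ^ 2 := by
    rw [← a3, a1]
    linear_combination (g ^ 2 / 4) * hr
  have hDg : (Dm n : ℝ) = -(g * (2 * g - 3 * g1)) / 8 := by
    have e : (1 + 2 * (-(2 + r) / 4)) = -r / 2 := by ring
    rw [a1, a2, e] at a4
    have h5 : r * (gd - 2 * g * (2 * g - 3 * g1)) = 0 := by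
      linear_combination 2 * a4 - (2 * r * g * g1) * hr
    have h6 := (mul_eq_zero.1 h5).resolve_left hr0
    rw [hD]
    linear_combination (-1 / 16 : ℝ) * h6
  constructor
  · have : ((3 * Wm n ^ 2 : ℚ) : ℝ) = ((Tm n : ℚ) : ℝ) := by
      push_cast
      rw [hWg, hT]; ring
    exact_mod_cast this
  · have : ((Wm n * Vm n : ℚ) : ℝ) = ((-Dm n : ℚ) : ℝ) := by
      push_cast
      rw [hWg, hVg, hDg]; ring
    exact_mod_cast this

end Pool.Agent.R439.LW
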