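import Pool.Agent.R439.LW.Defs

set_option autoImplicit false

namespace Pool.Agent.R439.LW

open Finset Polynomial Pool.Agent.Helper857.Pad Pool.Agent.R856.CM

/-- P1 -/
def S_POLY : Prop := ∀ l : ℕ, ff (2*l+1) = (1 + 2*X) * (∑ k ∈ range (l+1), C (gg l k) * X^k).comp (C (-4) * (X + X^2))

/-- P3, from `square` and `sq_der` of CM1, CM10 -/
def S_SQ : Prop := ∀ m : ℕ, m % 2 = 1 → 3 * Wm m^2 = Tm m ∧ Wm m * Vm m = -Dm m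

/-- P4 reversal -/
def S_REV : Prop := ∀ l : ℕ, Rl l = Kl l * Bl l

/-- P5 certificate -/
def S_STR : Prop := ∀ l : ℕ, Cl l = fl l

/-- P6 termwise first order expansions -/
def S_EXP : Prop := ∀ (p : ℕ) [Fact p.Prime] (l : ℕ), 4*l+3 = p → 1 ≤ l →
  I p 2 (2*Al l - Bl l - Cl l) ∧ I p 2 (Al l^2 - Bl l * Cl l) ∧ I p 1 (Al l - Bl l) ∧
  Al l ∈ Zp p ∧ Bl l ∈ Zp p ∧ Cl l ∈ Zp p

/-- P8 `2K ≡ ± 1` modulo `p` -/
def S_KMOD : Prop := ∀ (p : ℕ) [Fact p.Prime] (l : ℕ), 4*l+3 = p → 1 ≤ l →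
  I p 1 (2 * Kl l - (-1)^(l+1)) ∧ Kl l ∈ Zp p

/-- P9 two exact evaluations and the resulting congruence -/
def S_LIN : Prop := ∀ (p : ℕ) [Fact p.Prime] (m : ℕ), 2*m+1 = p → 2 ≤ m → m % 2 = 1 →
  I p 2 (6 * Dm m + Tm m + p)

end Pool.Agent.R439.LW
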